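import Pool.Agent.H483Z.MagKernel

set_option autoImplicit false

/-!
Continuity of magnitude at finite subsets of a finite-dimensional positive definite normed space.
-/

namespace Pool.Agent.H483Z.Mag

open Finset Real Filter Topology

section psd

variable {ι : Type} [Fintype ι]

/-- The quadratic form of a kernel. -/
def QF (F : ι → ι → ℝ) (ν : ι → ℝ) : ℝ := ∑ i, ∑ j, ν i * ν j * F i j

lemma QF_eq (F : Matrix ι ι ℝ) (ν : ι → ℝ) : star ν ⬝ᵥ (F.mulVec ν) = QF F ν := by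
  simp only [QF, dotProduct, Matrix.mulVec, star_trivial, Finset.mul_sum]
  refine Finset.sum_congr rfl fun i _ => Finset.sum_congr rfl fun j _ => ?_
  ring

lemma posSemidef_of (F : ι → ι → ℝ) (hs : ∀ i j, F i j = F j i) (h : ∀ ν, 0 ≤ QF F ν) :
    (Matrix.of F).PosSemidef := by
  refine Matrix.PosSemidef.of_dotProduct_mulVec_nonneg ?_ fun x => ?_
  · ext i j
    simp [hs i j]
  · rw [QF_eq]
    exact h x

lemma exp_ge (W P : ι → ι → ℝ) (hW : (Matrix.of W).PosSemidef) (hP : (Matrix.of P).PosSemidef)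
    (ν : ι → ℝ) : QF W ν ≤ QF (fun i j => W i j * exp (P i j)) ν := by
  have h1 : ∀ r : ℕ, (Matrix.of fun i j => W i j * P i j ^ r).PosSemidef := by
    intro r
    induction r with
    | zero => simpa using hW
    | succ r ih =>
      have h2 := ih.hadamard hP
      have h3 : (Matrix.of fun i j => W i j * P i j ^ (r + 1)) =
          Matrix.hadamard (Matrix.of fun i j => W i j * P i j ^ r) (Matrix.of P) := by
        ext i j
        simp [pow_succ, mul_assoc]
      rw [h3]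
      exact h2
  have h2 : ∀ r : ℕ, 0 ≤ QF (fun i j => W i j * P i j ^ r) ν := by
    intro r
    have := (h1 r).dotProduct_mulVec_nonneg ν
    rwa [QF_eq] at this
  have h3 : HasSum (fun r : ℕ => ∑ i, ∑ j, ν i * ν j * W i j * (P i j ^ r / r.factorial))
      (∑ i, ∑ j, ν i * ν j * W i j * exp (P i j)) := by
    refine hasSum_sum fun i _ => hasSum_sum fun j _ => HasSum.mul_left _ ?_
    rw [Real.exp_eq_exp_ℝ]
    exact NormedSpace.expSeries_div_hasSum_exp (P i j)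
  have h4 := le_hasSum h3 0 (fun r _ => by
    have h5 : ∑ i, ∑ j, ν i * ν j * W i j * (P i j ^ r / r.factorial) =
        QF (fun i j => W i j * P i j ^ r) ν / r.factorial := by
      simp only [QF, Finset.sum_div]
      refine Finset.sum_congr rfl fun i _ => Finset.sum_congr rfl fun j _ => ?_
      ring
    rw [h5]
    exact div_nonneg (h2 r) (by positivity))
  simpa [QF, mul_assoc] using h4

lemma QF_solve (Z : ι → ι → ℝ) (w f : ι → ℝ) (hw : ∀ k, ∑ l, Z k l * w l = f k) (a : ι → ℝ) :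
    ∑ k, ∑ l, a k * w l * Z k l = ∑ k, a k * f k := by
  refine Finset.sum_congr rfl fun k _ => ?_
  rw [← hw k, Finset.mul_sum]
  refine Finset.sum_congr rfl fun l _ => ?_
  ring

lemma var_le (Z : ι → ι → ℝ) (hs : ∀ i j, Z i j = Z j i) (hZ : ∀ ν, 0 ≤ QF Z ν) (w f : ι → ℝ)
    (hw : ∀ k, ∑ l, Z k l * w l = f k) (a : ι → ℝ) :
    2 * ∑ k, a k * f k - QF Z a ≤ ∑ k, w k * f k := by
  have h1 := hZ (fun k => a k - w k)
  have h2 : QF Z (fun k => a k - w k) = QF Z a - ∑ k, ∑ l, a k * w l * Z k l -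
      ∑ k, ∑ l, a l * w k * Z l k + ∑ k, ∑ l, w k * w l * Z k l := by
    simp only [QF, ← Finset.sum_sub_distrib, ← Finset.sum_add_distrib]
    refine Finset.sum_congr rfl fun k _ => Finset.sum_congr rfl fun l _ => ?_
    rw [hs l k]
    ring
  have h3 : ∑ k, ∑ l, a l * w k * Z l k = ∑ k, ∑ l, a k * w l * Z k l := Finset.sum_comm
  rw [h2, h3, QF_solve Z w f hw a, QF_solve Z w f hw w] at h1
  linarith

lemma inv_solve [DecidableEq ι] (Z : Matrix ι ι ℝ) (hZ : Z.PosDef) (f : ι → ℝ) (k : ι) :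
    ∑ l, Z k l * (∑ j, Z⁻¹ l j * f j) = f k := by
  have h1 : Z * Z⁻¹ = 1 := Matrix.mul_nonsing_inv Z ((Matrix.isUnit_iff_isUnit_det Z).1 hZ.isUnit)
  have h2 : Z.mulVec (Z⁻¹.mulVec f) = f := by rw [Matrix.mulVec_mulVec, h1, Matrix.one_mulVec]
  exact congrFun h2 k

lemma QF_smul (Z : ι → ι → ℝ) (r : ℝ) (a : ι → ℝ) : QF Z (fun k => r * a k) = r ^ 2 * QF Z a := by
  simp only [QF, Finset.mul_sum]
  refine Finset.sum_congr rfl fun k _ => Finset.sum_congr rfl fun l _ => ?_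
  ring

lemma exists_gap [DecidableEq ι] (Z : Matrix ι ι ℝ) (hZ : Z.PosDef) (hs : ∀ i j, Z i j = Z j i) :
    ∃ σ : ℝ, 0 < σ ∧ ∀ a : ι → ℝ, σ * ∑ k, a k ^ 2 ≤ QF Z a := by
  set C : ℝ := ∑ k, ∑ l, |Z⁻¹ k l| with hC
  have hC0 : 0 ≤ C := by positivity
  refine ⟨1 / (C + 1), by positivity, fun a => ?_⟩
  set τ : ℝ := 1 / (C + 1) with hτ
  have hτ0 : 0 < τ := by positivity
  have hQ : ∀ ν, 0 ≤ QF Z ν := fun ν => by
    rw [← QF_eq]
    exact hZ.posSemidef.dotProduct_mulVec_nonneg ν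
  have h1 := var_le Z hs hQ _ (fun k => τ * a k) (inv_solve Z hZ (fun k => τ * a k)) a
  set N : ℝ := ∑ k, a k ^ 2 with hN
  have hN0 : 0 ≤ N := by positivity
  have h2 : ∑ k, a k * (τ * a k) = τ * N := by
    rw [hN, Finset.mul_sum]
    refine Finset.sum_congr rfl fun k _ => ?_
    ring
  have h3 : ∀ k, a k ^ 2 ≤ N := fun k =>
    Finset.single_le_sum (f := fun k => a k ^ 2) (fun k _ => sq_nonneg _) (Finset.mem_univ k)
  have h4 : ∑ k, (∑ j, Z⁻¹ k j * (τ * a j)) * (τ * a k) ≤ τ ^ 2 * N * C := by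
    rw [hC, Finset.mul_sum]
    refine Finset.sum_le_sum fun k _ => ?_
    rw [Finset.sum_mul, Finset.mul_sum]
    refine Finset.sum_le_sum fun j _ => ?_
    have h5 : |a j * a k| ≤ N := by
      rw [abs_le]
      constructor <;> nlinarith [h3 j, h3 k, sq_nonneg (a j - a k), sq_nonneg (a j + a k)]
    have h6 : Z⁻¹ k j * (a j * a k) ≤ |Z⁻¹ k j| * N := by
      refine (le_abs_self _).trans ?_
      rw [abs_mul]
      exact mul_le_mul_of_nonneg_left h5 (abs_nonneg _)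
    have h7 := mul_le_mul_of_nonneg_left h6 (sq_nonneg τ)
    nlinarith
  have h5 : τ * C ≤ 1 := by
    rw [hτ, div_mul_eq_mul_div, div_le_one (by positivity)]
    linarith
  have h6 : τ ^ 2 * N * C ≤ τ * N := by
    have := mul_le_mul_of_nonneg_left h5 (mul_nonneg hτ0.le hN0)
    nlinarith
  rw [h2] at h1
  linarith

end psd

section main

variable {U : Type} [NormedAddCommGroup U]

lemma kerPos_of (hPD : ∀ X : Finset U,
    (Matrix.of fun (x y : ↥X) => Real.exp (-‖(x : U) - (y : U)‖)).PosDef) : KerPos U := by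
  classical
  intro ι _ y c
  set X : Finset U := Finset.univ.image y with hX
  have h1 := sum_sum_mass (κ := X) (fun i => ⟨y i, Finset.mem_image_of_mem y (Finset.mem_univ i)⟩)
    c (fun k l => exp (-‖(k : U) - (l : U)‖))
  rw [h1]
  have h2 := (hPD X).posSemidef.dotProduct_mulVec_nonneg
    (mass (κ := X) (fun i => ⟨y i, Finset.mem_image_of_mem y (Finset.mem_univ i)⟩) c)
  rw [QF_eq] at h2
  exact h2

lemma exp_lip (a b : ℝ) (ha : 0 ≤ a) (hb : 0 ≤ b) : |exp (-a) - exp (-b)| ≤ |a - b| := by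
  wlog h : a ≤ b generalizing a b
  · rw [abs_sub_comm, abs_sub_comm a]
    exact this b a hb ha (le_of_not_ge h)
  have h1 : exp (-b) = exp (-a) * exp (-(b - a)) := by
    rw [← Real.exp_add]
    congr 1
    ring
  have h2 : exp (-a) ≤ 1 := Real.exp_le_one_iff.2 (by linarith)
  have h3 := Real.add_one_le_exp (-(b - a))
  have h4 : exp (-(b - a)) ≤ 1 := Real.exp_le_one_iff.2 (by linarith)
  have h5 := Real.exp_pos (-a)
  rw [abs_of_nonpos (by linarith : a - b ≤ 0), h1, abs_of_nonneg (by nlinarith)]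
  nlinarith

lemma cluster_ge [NormedSpace ℝ U] [FiniteDimensional ℝ U] (hU : KerPos U) (κ : Type) [Fintype κ]
    [DecidableEq κ] :
    ∃ C : ℝ, 0 ≤ C ∧ ∀ (ι : Type) [Fintype ι] (cl : ι → κ) (x : κ → U) (y : ι → U) (ε σ : ℝ),
      0 ≤ ε → (∀ i, ‖y i - x (cl i)‖ ≤ ε) →
      (∀ a : κ → ℝ, σ * ∑ k, a k ^ 2 ≤ QF (fun k l => exp (-‖x k - x l‖)) a) → ε * C ≤ σ →
      ∀ ν : ι → ℝ,
      QF (fun k l => exp (-‖x k - x l‖)) (mass cl ν) - ε * C * ∑ k, mass cl ν k ^ 2 ≤
        QF (fun i j => exp (-‖y i - y j‖)) ν := by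
  obtain ⟨C, hC0, hC⟩ := cluster_psd hU κ
  refine ⟨C, hC0, fun ι _ cl x y ε σ hε hy hσ hεσ ν => ?_⟩
  set Λ := ε * C with hΛ
  have hΛ0 : 0 ≤ Λ := by positivity
  have hdiag : ∀ a : κ → ℝ, ∑ k, ∑ l, a k * a l * (if k = l then (1 : ℝ) else 0) =
      ∑ k, a k ^ 2 := by
    intro a
    refine Finset.sum_congr rfl fun k _ => ?_
    simp [sq]
  set W : κ → κ → ℝ := fun k l => exp (-‖x k - x l‖ - Λ * (if k = l then 1 else 0)) with hW
  have hWQ : ∀ a : κ → ℝ,
      QF (fun k l => exp (-‖x k - x l‖)) a - Λ * ∑ k, a k ^ 2 ≤ QF W a := by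
    intro a
    have h1 : QF W a = QF (fun k l => exp (-‖x k - x l‖)) a - (1 - exp (-Λ)) * ∑ k, a k ^ 2 := by
      rw [← hdiag, QF, QF, Finset.mul_sum, ← Finset.sum_sub_distrib]
      refine Finset.sum_congr rfl fun k _ => ?_
      rw [Finset.mul_sum, ← Finset.sum_sub_distrib]
      refine Finset.sum_congr rfl fun l _ => ?_
      by_cases hkl : k = l
      · subst hkl
        simp [hW]
        ring
      · simp [hW, hkl]
    have h2 := Real.add_one_le_exp (-Λ)
    have h3 : 0 ≤ ∑ k, a k ^ 2 := by positivity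
    rw [h1]
    nlinarith
  have hWm : ∀ μ : ι → ℝ, QF (fun i j => W (cl i) (cl j)) μ = QF W (mass cl μ) :=
    fun μ => sum_sum_mass cl μ W
  have hW1 : (Matrix.of fun i j => W (cl i) (cl j)).PosSemidef := by
    refine posSemidef_of _ (fun i j => ?_) fun μ => ?_
    · simp only [hW, norm_sub_rev (x (cl i)), eq_comm (a := cl i)]
    · rw [hWm]
      have h1 := hWQ (mass cl μ)
      have h2 := hσ (mass cl μ)
      have h3 : 0 ≤ ∑ k, mass cl μ k ^ 2 := by positivity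
      nlinarith
  set P : ι → ι → ℝ := fun i j =>
    ‖x (cl i) - x (cl j)‖ - ‖y i - y j‖ + Λ * (if cl i = cl j then 1 else 0) with hP
  have hP1 : (Matrix.of P).PosSemidef := by
    refine posSemidef_of _ (fun i j => ?_) fun μ => ?_
    · simp only [hP, norm_sub_rev (x (cl i)), norm_sub_rev (y i), eq_comm (a := cl i)]
    · refine (hC ι cl x y ε hε hy μ).trans (le_of_eq ?_)
      rw [← hdiag, ← sum_sum_mass cl μ (fun k l => if k = l then (1 : ℝ) else 0), QF,
        Finset.mul_sum, ← Finset.sum_sub_distrib, ← Finset.sum_add_distrib]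
      refine Finset.sum_congr rfl fun i _ => ?_
      rw [Finset.mul_sum, ← Finset.sum_sub_distrib, ← Finset.sum_add_distrib]
      refine Finset.sum_congr rfl fun j _ => ?_
      simp only [hP]
      ring
  have h1 := exp_ge _ _ hW1 hP1 ν
  have h2 : (fun i j => W (cl i) (cl j) * exp (P i j)) = fun i j => exp (-‖y i - y j‖) := by
    funext i j
    simp only [hW, hP]
    rw [← Real.exp_add]
    congr 1
    ring
  rw [h2, hWm] at h1
  exact (hWQ _).trans h1

lemma exists_weight [DecidableEq U] (T : Finset U)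
    (hT : (Matrix.of fun (x y : ↥T) => Real.exp (-‖(x : U) - (y : U)‖)).PosDef) :
    ∃ w : T → ℝ, (∀ k : T, ∑ l : T, exp (-‖(k : U) - l‖) * w l = 1) ∧
      (∑ i, ∑ j, (Matrix.of fun (x y : ↥T) => Real.exp (-‖(x : U) - (y : U)‖))⁻¹ i j) =
        ∑ k, w k * 1 :=
  ⟨fun l => ∑ j, (Matrix.of fun (x y : ↥T) => Real.exp (-‖(x : U) - (y : U)‖))⁻¹ l j * 1,
    inv_solve _ hT (fun _ => 1), by simp⟩

theorem continuity [NormedSpace ℝ U] [FiniteDimensional ℝ U] [DecidableEq U]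
    (hPD : ∀ X : Finset U,
      (Matrix.of fun (x y : ↥X) => Real.exp (-‖(x : U) - (y : U)‖)).PosDef)
    (X : Finset U) (hX : X.Nonempty) (ε : ℝ) (hε : 0 < ε) : ∃ δ : ℝ, 0 < δ ∧
      ∀ Y : Finset U, Y.Nonempty → Metric.hausdorffDist (X : Set U) (Y : Set U) < δ →
        |(∑ i, ∑ j, (Matrix.of fun (x y : ↥Y) => Real.exp (-‖(x : U) - (y : U)‖))⁻¹ i j) -
          (∑ i, ∑ j, (Matrix.of fun (x y : ↥X) => Real.exp (-‖(x : U) - (y : U)‖))⁻¹ i j)| < ε := by
  have hU := kerPos_of hPD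
  obtain ⟨C, hC0, hC⟩ := cluster_ge hU X
  have hsym : ∀ (T : Finset U) (i j : T), exp (-‖(i : U) - j‖) = exp (-‖(j : U) - i‖) :=
    fun T i j => by rw [norm_sub_rev]
  have hpos : ∀ (T : Finset U) (ν : T → ℝ), 0 ≤ QF (fun i j : T => exp (-‖(i : U) - j‖)) ν :=
    fun T ν => hU T (fun i => (i : U)) ν
  obtain ⟨σ, hσ0, hσ⟩ := exists_gap _ (hPD X) (hsym X)
  obtain ⟨w, hw1, e2⟩ := exists_weight X (hPD X)
  obtain ⟨M, hM⟩ : ∃ M : ℝ, M = ∑ k, w k * 1 := ⟨_, rfl⟩
  have hvar := var_le _ (hsym X) (hpos X) w (fun _ => 1) hw1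
  rw [← hM] at hvar e2
  have hM0 : 0 ≤ M := by simpa [QF] using hvar 0
  have hQw : QF (fun i j : X => exp (-‖(i : U) - j‖)) w = M :=
    (QF_solve _ w _ hw1 w).trans hM.symm
  obtain ⟨Wt, hWt⟩ : ∃ Wt : ℝ, Wt = ∑ k, |w k| := ⟨_, rfl⟩
  obtain ⟨K1, hK1⟩ : ∃ K1 : ℝ, K1 = 2 * C / σ := ⟨_, rfl⟩
  have hK10 : 0 ≤ K1 := by rw [hK1]; positivity
  obtain ⟨K2, hK2⟩ : ∃ K2 : ℝ, K2 = M * K1 + 2 * Wt ^ 2 + 1 := ⟨_, rfl⟩
  have hK20 : 0 < K2 := by rw [hK2]; positivity
  obtain ⟨δ, hδ0, hδ1, hδ2⟩ : ∃ δ : ℝ, 0 < δ ∧ δ * K1 ≤ 1 ∧ δ * K2 ≤ ε := by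
    refine ⟨min (1 / (K1 + 1)) (ε / K2), by positivity, ?_, ?_⟩
    · have h1 : min (1 / (K1 + 1)) (ε / K2) ≤ 1 / (K1 + 1) := min_le_left _ _
      have h0 : 0 < min (1 / (K1 + 1)) (ε / K2) := by positivity
      rw [le_div_iff₀ (by positivity)] at h1
      nlinarith
    · have h1 : min (1 / (K1 + 1)) (ε / K2) ≤ ε / K2 := min_le_right _ _
      rwa [le_div_iff₀ hK20] at h1
  refine ⟨δ, hδ0, fun Y hY hd => ?_⟩
  have hfin : Metric.hausdorffEDist (X : Set U) (Y : Set U) ≠ ⊤ :=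
    Metric.hausdorffEDist_ne_top_of_nonempty_of_bounded hX hY X.finite_toSet.isBounded
      Y.finite_toSet.isBounded
  have hcl : ∀ i : Y, ∃ k : X, ‖(i : U) - k‖ ≤ δ := by
    intro i
    obtain ⟨k, hk, hk2⟩ := Metric.exists_dist_lt_of_hausdorffDist_lt' i.2 hd hfin
    refine ⟨⟨k, hk⟩, ?_⟩
    rw [dist_comm, dist_eq_norm] at hk2
    exact hk2.le
  have hg : ∀ k : X, ∃ i : Y, ‖(i : U) - k‖ ≤ δ := by
    intro k
    obtain ⟨i, hi, hi2⟩ := Metric.exists_dist_lt_of_hausdorffDist_lt k.2 hd hfin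
    refine ⟨⟨i, hi⟩, ?_⟩
    rw [dist_comm, dist_eq_norm] at hi2
    exact hi2.le
  choose cl hcl using hcl
  choose g hg using hg
  obtain ⟨ν, hν1, e1⟩ := exists_weight Y (hPD Y)
  obtain ⟨M', hM'⟩ : ∃ M' : ℝ, M' = ∑ k, ν k * 1 := ⟨_, rfl⟩
  rw [← hM'] at e1
  have hQν : QF (fun i j : Y => exp (-‖(i : U) - j‖)) ν = M' :=
    (QF_solve _ ν _ hν1 ν).trans hM'.symm
  rw [e1, e2]
  have hCσ : δ * C = δ * K1 / 2 * σ := by
    rw [hK1]
    field_simp
  have hup : M' ≤ M + δ * (M * K1) := by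
    have h1 := hC Y cl (fun k => (k : U)) (fun i => (i : U)) δ σ hδ0.le hcl hσ (by
      rw [hCσ]
      nlinarith) ν
    rw [hQν] at h1
    have h2 : M' = ∑ k, mass cl ν k * 1 := hM'.trans (sum_mass cl ν (fun _ => 1))
    have h3 := hσ (mass cl ν)
    obtain ⟨r, hr⟩ : ∃ r : ℝ, r = 1 - δ * K1 / 2 := ⟨_, rfl⟩
    have h4 := hvar (fun k => r * mass cl ν k)
    rw [QF_smul] at h4
    have h5 : ∑ k, r * mass cl ν k * 1 = r * M' := by
      rw [h2, Finset.mul_sum]
      refine Finset.sum_congr rfl fun k _ => ?_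
      ring
    rw [h5] at h4
    change σ * ∑ k, mass cl ν k ^ 2 ≤
      QF (fun i j : X => exp (-‖(i : U) - j‖)) (mass cl ν) at h3
    generalize QF (fun i j : X => exp (-‖(i : U) - j‖)) (mass cl ν) = q at h1 h3 h4
    generalize ∑ k, mass cl ν k ^ 2 = N at h1 h3
    have hs : 0 ≤ δ * K1 := by positivity
    have h6 : r * q ≤ M' := by
      rw [hCσ] at h1
      have := mul_le_mul_of_nonneg_left h3 (by linarith : 0 ≤ δ * K1 / 2)
      rw [hr]
      nlinarith
    have hr0 : 1 / 2 ≤ r := by rw [hr]; linarith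
    have h7 : r * M' ≤ M := by
      have := mul_le_mul_of_nonneg_left h6 (by linarith : 0 ≤ r)
      nlinarith
    by_contra hcon
    push Not at hcon
    have h8 := mul_lt_mul_of_pos_left hcon (by linarith : 0 < r)
    have h9 : M ≤ r * (M + δ * (M * K1)) := by
      have : r * (M + δ * (M * K1)) = M + M * (δ * K1 / 2 * (1 - δ * K1)) := by
        rw [hr]
        ring
      rw [this]
      have : 0 ≤ M * (δ * K1 / 2 * (1 - δ * K1)) :=
        mul_nonneg hM0 (mul_nonneg (by linarith) (by linarith))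
      linarith
    linarith
  have hlow : M - δ * (2 * Wt ^ 2) ≤ M' := by
    have h1 := var_le _ (hsym Y) (hpos Y) ν (fun _ => 1) hν1 (mass g w)
    have h2 : M = ∑ i, mass g w i * 1 := hM.trans (sum_mass g w (fun _ => 1))
    have h3 : QF (fun i j : Y => exp (-‖(i : U) - j‖)) (mass g w) =
        ∑ k, ∑ l, w k * w l * exp (-‖(g k : U) - g l‖) :=
      (sum_sum_mass g w (fun i j : Y => exp (-‖(i : U) - j‖))).symm
    have h4 : ∑ k, ∑ l, w k * w l * exp (-‖(g k : U) - g l‖) ≤ M + δ * (2 * Wt ^ 2) := by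
      have h5 : δ * (2 * Wt ^ 2) = ∑ k, ∑ l, |w k| * |w l| * (2 * δ) := by
        simp only [← Finset.sum_mul, ← Finset.mul_sum, ← hWt]
        ring
      rw [← hQw, h5, QF, ← Finset.sum_add_distrib]
      refine Finset.sum_le_sum fun k _ => ?_
      rw [← Finset.sum_add_distrib]
      refine Finset.sum_le_sum fun l _ => ?_
      have h6 := exp_lip _ _ (norm_nonneg ((g k : U) - g l)) (norm_nonneg ((k : U) - l))
      have h7 : ‖((g k : U) - g l) - ((k : U) - l)‖ ≤ 2 * δ := by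
        have : ((g k : U) - g l) - ((k : U) - l) = ((g k : U) - k) - ((g l : U) - l) := by abel
        rw [this]
        refine (norm_sub_le _ _).trans ?_
        linarith [hg k, hg l]
      have h8 := h6.trans ((abs_norm_sub_norm_le _ _).trans h7)
      have h9 : |w k * w l * (exp (-‖(g k : U) - g l‖) - exp (-‖(k : U) - l‖))| ≤
          |w k| * |w l| * (2 * δ) := by
        rw [abs_mul, abs_mul]
        exact mul_le_mul_of_nonneg_left h8 (by positivity)
      have h10 := le_abs_self (w k * w l * (exp (-‖(g k : U) - g l‖) - exp (-‖(k : U) - l‖)))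
      linarith
    rw [← h2, h3, ← hM'] at h1
    linarith
  have h1 : 0 ≤ δ * (M * K1) := by positivity
  have h2 : 0 ≤ δ * (2 * Wt ^ 2) := by positivity
  have h3 : δ * K2 = δ * (M * K1) + δ * (2 * Wt ^ 2) + δ := by
    rw [hK2]
    ring
  rw [abs_lt]
  constructor <;> linarith

end main

end Pool.Agent.H483Z.Mag
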