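import Pool.Agent.Helper209.CX.A04
import Pool.Agent.H483Z.MagMain

set_option autoImplicit false

/-!
Fourier representation of the kernel `exp (-s |z|)` on the plane and comparison of kernels through
their spectral densities.
-/

namespace Pool.Agent.H483Z.IE

open MeasureTheory Real Filter Topology Finset

lemma int_cauchy (p : ℝ) (hp : 0 < p) : Integrable (fun ξ : ℝ => (ξ ^ 2 + p ^ 2)⁻¹) := by
  have h := (Pool.Agent.Helper209.CX.A04.cx_fourier (Complex.I * p) (by simpa using hp) 0).1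
  refine h.re.congr (Eventually.of_forall fun ξ => ?_)
  have e : ((ξ : ℂ) ^ 2 - (Complex.I * p) ^ 2)⁻¹ = (((ξ ^ 2 + p ^ 2)⁻¹ : ℝ) : ℂ) := by
    push_cast
    rw [mul_pow, Complex.I_sq]
    ring
  simp only [e, RCLike.re_to_complex, Complex.ofReal_re]

lemma int_trig (p : ℝ) (hp : 0 < p) (f : ℝ → ℝ) (hf : Continuous f) (h1 : ∀ x, |f x| ≤ 1) :
    Integrable (fun ξ : ℝ => f ξ * (ξ ^ 2 + p ^ 2)⁻¹) :=
  (int_cauchy p hp).bdd_mul (c := 1) hf.aestronglyMeasurable (Eventually.of_forall h1)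

lemma cauchy_both (p : ℝ) (hp : 0 < p) (x : ℝ) :
    ∫ ξ : ℝ, cos (ξ * x) * (ξ ^ 2 + p ^ 2)⁻¹ = π / p * exp (-(p * |x|)) ∧
      ∫ ξ : ℝ, sin (ξ * x) * (ξ ^ 2 + p ^ 2)⁻¹ = 0 := by
  have h := (Pool.Agent.Helper209.CX.A04.cx_fourier (Complex.I * p) (by simpa using hp) x).2
  have e : ∀ ξ : ℝ, Complex.exp (Complex.I * ξ * x) * ((ξ : ℂ) ^ 2 - (Complex.I * p) ^ 2)⁻¹ =
      ((cos (ξ * x) * (ξ ^ 2 + p ^ 2)⁻¹ : ℝ) : ℂ) +
        ((sin (ξ * x) * (ξ ^ 2 + p ^ 2)⁻¹ : ℝ) : ℂ) * Complex.I := by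
    intro ξ
    have e1 : Complex.I * ξ * x = ((ξ * x : ℝ) : ℂ) * Complex.I := by
      push_cast
      ring
    rw [e1, Complex.exp_mul_I, mul_pow, Complex.I_sq]
    push_cast
    ring
  have e2 : 2 * (π : ℂ) * (Complex.I / (2 * (Complex.I * p)) *
      Complex.exp (Complex.I * (Complex.I * p) * |x|)) =
      ((π / p * exp (-(p * |x|)) : ℝ) : ℂ) := by
    have e3 : Complex.I * (Complex.I * p) * |x| = ((-(p * |x|) : ℝ) : ℂ) := by
      rw [← mul_assoc, Complex.I_mul_I]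
      push_cast
      ring
    have hp' : (p : ℂ) ≠ 0 := by exact_mod_cast hp.ne'
    have hI := Complex.I_ne_zero
    rw [e3, ← Complex.ofReal_exp]
    push_cast
    field_simp
  have i1 := int_trig p hp (fun ξ => cos (ξ * x)) (by fun_prop) (fun _ => abs_cos_le_one _)
  have i2 := int_trig p hp (fun ξ => sin (ξ * x)) (by fun_prop) (fun _ => abs_sin_le_one _)
  simp only [e] at h
  rw [e2, integral_add i1.ofReal (i2.ofReal.mul_const _), integral_mul_const,
    integral_complex_ofReal, integral_complex_ofReal] at h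
  have h1 := congrArg Complex.re h
  have h2 := congrArg Complex.im h
  simp only [Complex.add_re, Complex.mul_re, Complex.add_im, Complex.mul_im, Complex.I_re,
    Complex.I_im, Complex.ofReal_re, Complex.ofReal_im, mul_zero, mul_one,
    sub_zero, add_zero, zero_add] at h1 h2
  exact ⟨h1, h2⟩

lemma slice_int (c : ℝ) (hc : 0 < c) :
    Integrable (fun η : ℝ => ((c + η ^ 2) * √(c + η ^ 2))⁻¹) := by
  have h0 : 0 < √c := Real.sqrt_pos.2 hc
  refine ((int_cauchy (√c) h0).const_mul (√c)⁻¹).mono' ?_ (Eventually.of_forall fun η => ?_)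
  · refine Continuous.aestronglyMeasurable (Continuous.inv₀ (by fun_prop) fun η => ?_)
    have : 0 < c + η ^ 2 := by positivity
    positivity
  · have h1 : 0 < c + η ^ 2 := by positivity
    have h2 : √c ≤ √(c + η ^ 2) := Real.sqrt_le_sqrt (by nlinarith [sq_nonneg η])
    rw [Real.norm_of_nonneg (by positivity), Real.sq_sqrt hc.le, ← mul_inv, add_comm (η ^ 2),
      mul_comm]
    exact inv_anti₀ (by positivity) (mul_le_mul_of_nonneg_right h2 h1.le)

lemma slice_val (c : ℝ) (hc : 0 < c) :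
    ∫ η : ℝ, ((c + η ^ 2) * √(c + η ^ 2))⁻¹ = 2 / c := by
  have hd : ∀ η : ℝ, HasDerivAt (fun η : ℝ => c⁻¹ * (η / √(c + η ^ 2)))
      (((c + η ^ 2) * √(c + η ^ 2))⁻¹) η := by
    intro η
    have h1 : 0 < c + η ^ 2 := by positivity
    have h2 : 0 < √(c + η ^ 2) := Real.sqrt_pos.2 h1
    have h3 : HasDerivAt (fun η : ℝ => c + η ^ 2) (2 * η) η := by
      simpa using (hasDerivAt_pow 2 η).const_add c
    have h4 := ((hasDerivAt_id' η).fun_div (h3.sqrt h1.ne') h2.ne').const_mul c⁻¹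
    refine h4.congr_deriv ?_
    have h5 : √(c + η ^ 2) ^ 2 = c + η ^ 2 := Real.sq_sqrt h1.le
    generalize √(c + η ^ 2) = r at *
    rw [← h5]
    field_simp
    linarith
  have ht : Tendsto (fun η : ℝ => η / √(c + η ^ 2)) atTop (𝓝 1) := by
    have h1 : Tendsto (fun η : ℝ => c + η ^ 2) atTop atTop :=
      tendsto_atTop_add_const_left _ _ (tendsto_pow_atTop two_ne_zero)
    have h2 : Tendsto (fun η : ℝ => √(1 - c / (c + η ^ 2))) atTop (𝓝 (√(1 - 0))) :=
      (tendsto_const_nhds.sub (h1.const_div_atTop c)).sqrt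
    rw [sub_zero, Real.sqrt_one] at h2
    refine h2.congr' ((eventually_gt_atTop 0).mono fun η hη => ?_)
    have h3 : 0 < c + η ^ 2 := by positivity
    have h4 : 1 - c / (c + η ^ 2) = η ^ 2 / (c + η ^ 2) := by
      field_simp
      ring
    simp only
    rw [h4, Real.sqrt_div (sq_nonneg η), Real.sqrt_sq hη.le]
  have hb : Tendsto (fun η : ℝ => η / √(c + η ^ 2)) atBot (𝓝 (-1)) := by
    have h1 := (ht.comp tendsto_neg_atBot_atTop).neg
    refine h1.congr fun η => ?_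
    simp [neg_div]
  rw [integral_of_hasDerivAt_of_tendsto hd (slice_int c hc) (hb.const_mul c⁻¹) (ht.const_mul c⁻¹)]
  field_simp
  ring

/-- The spectral density of `exp (-s |z|)` on the plane, up to the factor `2 π`. -/
noncomputable def rho (s : ℝ) (q : ℝ × ℝ) : ℝ :=
  s * ((s ^ 2 + q.1 ^ 2 + q.2 ^ 2) * √(s ^ 2 + q.1 ^ 2 + q.2 ^ 2))⁻¹

lemma rho_cont (s : ℝ) (hs : 0 < s) : Continuous (rho s) := by
  unfold rho
  refine continuous_const.mul (Continuous.inv₀ (by fun_prop) fun q => ?_)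
  have : 0 < s ^ 2 + q.1 ^ 2 + q.2 ^ 2 := by positivity
  positivity

lemma rho_slice (s : ℝ) (hs : 0 < s) (ξ : ℝ) :
    ∫ η, rho s (ξ, η) = 2 * s * (ξ ^ 2 + s ^ 2)⁻¹ := by
  simp only [rho]
  rw [integral_const_mul, slice_val _ (by positivity), add_comm]
  ring

lemma rho_int (s : ℝ) (hs : 0 < s) : Integrable (rho s) := by
  rw [Measure.volume_eq_prod, integrable_prod_iff (rho_cont s hs).aestronglyMeasurable]
  refine ⟨Eventually.of_forall fun ξ =>
    (slice_int (s ^ 2 + ξ ^ 2) (by positivity)).const_mul s, ?_⟩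
  refine ((int_cauchy s hs).const_mul (2 * s)).congr (Eventually.of_forall fun ξ => ?_)
  simp only
  rw [← rho_slice s hs ξ]
  refine integral_congr_ae (Eventually.of_forall fun η => ?_)
  simp only
  rw [Real.norm_of_nonneg]
  unfold rho
  positivity

lemma rot (c d : ℝ) (h : c ^ 2 + d ^ 2 = 1) (g : ℝ × ℝ → ℝ) :
    ∫ q : ℝ × ℝ, g (c * q.1 - d * q.2, d * q.1 + c * q.2) = ∫ q, g q := by
  have hu : (⟨c, d⟩ : ℂ) ∈ Metric.sphere (0 : ℂ) 1 := by
    rw [mem_sphere_zero_iff_norm, Complex.norm_eq_sqrt_sq_add_sq, h, Real.sqrt_one]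
  have h1 := (rotation ⟨_, hu⟩).measurePreserving
  have h2 := Complex.volume_preserving_equiv_real_prod
  have h3 := (h2.comp h1).comp h2.symm
  have h4 := (Complex.measurableEquivRealProd.measurableEmbedding.comp
    (rotation ⟨_, hu⟩).toHomeomorph.measurableEmbedding).comp
    Complex.measurableEquivRealProd.symm.measurableEmbedding
  rw [← h3.integral_comp h4 g]
  refine integral_congr_ae (Eventually.of_forall fun q => ?_)
  simp only [Function.comp]
  congr 1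
  ext
  · change _ = ((⟨c, d⟩ : ℂ) * ⟨q.1, q.2⟩).re
    simp
  · change _ = ((⟨c, d⟩ : ℂ) * ⟨q.1, q.2⟩).im
    simp
    ring

lemma cos_int (ρ : ℝ × ℝ → ℝ) (hρ : Integrable ρ) (a b : ℝ) :
    Integrable (fun q : ℝ × ℝ => cos (q.1 * a + q.2 * b) * ρ q) :=
  hρ.bdd_mul (c := 1) (Continuous.aestronglyMeasurable (by fun_prop))
    (Eventually.of_forall fun _ => abs_cos_le_one _)

lemma planar (s : ℝ) (hs : 0 < s) (a b : ℝ) :
    ∫ q : ℝ × ℝ, cos (q.1 * a + q.2 * b) * rho s q = 2 * π * exp (-(s * √(a ^ 2 + b ^ 2))) := by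
  obtain ⟨r, hr⟩ : ∃ r, r = √(a ^ 2 + b ^ 2) := ⟨_, rfl⟩
  have hr0 : 0 ≤ r := hr ▸ Real.sqrt_nonneg _
  have hr2 : r ^ 2 = a ^ 2 + b ^ 2 := hr ▸ Real.sq_sqrt (by positivity)
  obtain ⟨c, d, h, ha, hb⟩ : ∃ c d : ℝ, c ^ 2 + d ^ 2 = 1 ∧ a = r * c ∧ b = r * d := by
    rcases hr0.eq_or_lt with h0 | h0
    · refine ⟨1, 0, by norm_num, ?_, ?_⟩ <;> rw [← h0] at hr2 ⊢ <;>
        nlinarith [sq_nonneg a, sq_nonneg b]
    · refine ⟨a / r, b / r, ?_, by field_simp, by field_simp⟩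
      field_simp
      linarith
  rw [← hr, ← rot c d h]
  have e : ∀ q : ℝ × ℝ, cos ((c * q.1 - d * q.2) * a + (d * q.1 + c * q.2) * b) *
      rho s (c * q.1 - d * q.2, d * q.1 + c * q.2) = cos (q.1 * r + q.2 * 0) * rho s q := by
    intro q
    have e1 : (c * q.1 - d * q.2) * a + (d * q.1 + c * q.2) * b = q.1 * r + q.2 * 0 := by
      rw [ha, hb]
      linear_combination (r * q.1) * h
    have e2 : s ^ 2 + (c * q.1 - d * q.2) ^ 2 + (d * q.1 + c * q.2) ^ 2 =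
        s ^ 2 + q.1 ^ 2 + q.2 ^ 2 := by
      linear_combination (q.1 ^ 2 + q.2 ^ 2) * h
    simp only [rho, e1, e2]
  simp only [e]
  have hi := cos_int _ (rho_int s hs) r 0
  rw [Measure.volume_eq_prod] at hi ⊢
  rw [integral_prod _ hi]
  simp only [mul_zero, add_zero, integral_const_mul, rho_slice s hs]
  have e3 : ∀ ξ : ℝ, cos (ξ * r) * (2 * s * (ξ ^ 2 + s ^ 2)⁻¹) =
      2 * s * (cos (ξ * r) * (ξ ^ 2 + s ^ 2)⁻¹) := fun ξ => by ring
  simp only [e3]
  rw [integral_const_mul, (cauchy_both s hs r).1, abs_of_nonneg hr0]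
  field_simp

lemma compare {ι : Type} [Fintype ι] (ρ₁ ρ₂ : ℝ × ℝ → ℝ) (h₁ : Integrable ρ₁) (h₂ : Integrable ρ₂)
    (h : ∀ q, ρ₁ q ≤ ρ₂ q) (a b w : ι → ℝ) :
    ∑ i, ∑ j, w i * w j * ∫ q : ℝ × ℝ, cos (q.1 * (a i - a j) + q.2 * (b i - b j)) * ρ₁ q ≤
      ∑ i, ∑ j, w i * w j * ∫ q : ℝ × ℝ, cos (q.1 * (a i - a j) + q.2 * (b i - b j)) * ρ₂ q := by
  have hI : ∀ ρ : ℝ × ℝ → ℝ, Integrable ρ → Integrable (fun q : ℝ × ℝ => ∑ i, ∑ j,
      w i * w j * (cos (q.1 * (a i - a j) + q.2 * (b i - b j)) * ρ q)) := fun ρ hρ =>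
    integrable_finsetSum _ fun i _ => integrable_finsetSum _ fun j _ =>
      (cos_int ρ hρ _ _).const_mul _
  have hE : ∀ ρ : ℝ × ℝ → ℝ, Integrable ρ →
      ∑ i, ∑ j, w i * w j * ∫ q : ℝ × ℝ, cos (q.1 * (a i - a j) + q.2 * (b i - b j)) * ρ q =
      ∫ q : ℝ × ℝ, ∑ i, ∑ j,
        w i * w j * (cos (q.1 * (a i - a j) + q.2 * (b i - b j)) * ρ q) := by
    intro ρ hρ
    rw [integral_finsetSum _ fun i _ => integrable_finsetSum _ fun j _ =>
      (cos_int ρ hρ _ _).const_mul _]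
    refine Finset.sum_congr rfl fun i _ => ?_
    rw [integral_finsetSum _ fun j _ => (cos_int ρ hρ _ _).const_mul _]
    simp only [integral_const_mul]
  rw [hE _ h₁, hE _ h₂]
  refine integral_mono (hI _ h₁) (hI _ h₂) fun q => ?_
  have e : ∀ t : ℝ, ∑ i, ∑ j, w i * w j * (cos (q.1 * (a i - a j) + q.2 * (b i - b j)) * t) =
      ((∑ i, w i * cos (q.1 * a i + q.2 * b i)) ^ 2 +
        (∑ i, w i * sin (q.1 * a i + q.2 * b i)) ^ 2) * t := by
    intro t
    rw [sq, sq, Finset.sum_mul_sum, Finset.sum_mul_sum, ← Finset.sum_add_distrib, Finset.sum_mul]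
    refine Finset.sum_congr rfl fun i _ => ?_
    rw [← Finset.sum_add_distrib, Finset.sum_mul]
    refine Finset.sum_congr rfl fun j _ => ?_
    have : q.1 * (a i - a j) + q.2 * (b i - b j) =
        (q.1 * a i + q.2 * b i) - (q.1 * a j + q.2 * b j) := by ring
    rw [this, cos_sub]
    ring
  simp only [e]
  exact mul_le_mul_of_nonneg_left (h q) (by positivity)

end Pool.Agent.H483Z.IE
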