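import Pool.Agent.H483Z.IEFourier

set_option autoImplicit false

/-!
A one-dimensional kernel with rational spectral density below `(1 + ξ ^ 2) ^ (-3 / 2)`, and an upper
bound for the capacity of an interval with respect to it.
-/

namespace Pool.Agent.H483Z.IE

open MeasureTheory Real Filter Topology Finset

/-- Decaying exponentials. -/
noncomputable def ee (p v : ℝ) : ℝ := exp (-(p * v))

lemma ee_zero (p : ℝ) : ee p 0 = 1 := by simp [ee]

lemma ee_deriv (p x u : ℝ) : HasDerivAt (fun u => ee p (x - u)) (p * ee p (x - u)) u := by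
  have h1 : HasDerivAt (fun u : ℝ => -(p * (x - u))) p u := by
    simpa using (((hasDerivAt_id' u).const_sub x).const_mul p).fun_neg
  exact h1.exp.congr_deriv (mul_comm _ _)

lemma ee_deriv' (p u : ℝ) : HasDerivAt (fun u => ee p u) (-p * ee p u) u := by
  have h1 : HasDerivAt (fun u : ℝ => -(p * u)) (-p) u := by
    simpa using ((hasDerivAt_id' u).const_mul p).fun_neg
  exact h1.exp.congr_deriv (mul_comm _ _)

lemma ee_cont (p : ℝ) : Continuous (ee p) := by
  unfold ee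
  fun_prop

/-- The one-dimensional kernel. -/
noncomputable def kk (s : ℝ) : ℝ :=
  104 / 77 * ee 1 |s| - 805 / 792 * ee (6 / 5) |s| - 11 / 504 * ee 6 |s|

/-- Its spectral density. -/
noncomputable def phi (ξ : ℝ) : ℝ :=
  208 / 77 * (ξ ^ 2 + 1 ^ 2)⁻¹ - 161 / 66 * (ξ ^ 2 + (6 / 5) ^ 2)⁻¹ - 11 / 42 * (ξ ^ 2 + 6 ^ 2)⁻¹

lemma phi_trig (f : ℝ → ℝ) (hf : Continuous f) (h1 : ∀ x, |f x| ≤ 1) :
    Integrable (fun ξ => f ξ * phi ξ) ∧ ∫ ξ, f ξ * phi ξ =
      208 / 77 * (∫ ξ, f ξ * (ξ ^ 2 + 1 ^ 2)⁻¹) - 161 / 66 * (∫ ξ, f ξ * (ξ ^ 2 + (6 / 5) ^ 2)⁻¹) -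
        11 / 42 * ∫ ξ, f ξ * (ξ ^ 2 + 6 ^ 2)⁻¹ := by
  have e : (fun ξ => f ξ * phi ξ) = fun ξ => 208 / 77 * (f ξ * (ξ ^ 2 + 1 ^ 2)⁻¹) -
      161 / 66 * (f ξ * (ξ ^ 2 + (6 / 5) ^ 2)⁻¹) - 11 / 42 * (f ξ * (ξ ^ 2 + 6 ^ 2)⁻¹) := by
    funext ξ
    unfold phi
    ring
  have i1 := (int_trig 1 one_pos f hf h1).const_mul (208 / 77)
  have i2 := (int_trig (6 / 5) (by norm_num) f hf h1).const_mul (161 / 66)
  have i3 := (int_trig 6 (by norm_num) f hf h1).const_mul (11 / 42)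
  rw [e]
  refine ⟨(i1.sub i2).sub i3, ?_⟩
  rw [integral_sub (i1.sub' i2) i3, integral_sub i1 i2, integral_const_mul, integral_const_mul,
    integral_const_mul]

lemma phi_cos (x : ℝ) : ∫ ξ, cos (ξ * x) * phi ξ = 2 * π * kk x := by
  rw [(phi_trig (fun ξ => cos (ξ * x)) (by fun_prop) (fun _ => abs_cos_le_one _)).2,
    (cauchy_both 1 one_pos x).1, (cauchy_both (6 / 5) (by norm_num) x).1,
    (cauchy_both 6 (by norm_num) x).1]
  unfold kk ee
  ring

lemma phi_sin (x : ℝ) : ∫ ξ, sin (ξ * x) * phi ξ = 0 := by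
  rw [(phi_trig (fun ξ => sin (ξ * x)) (by fun_prop) (fun _ => abs_sin_le_one _)).2,
    (cauchy_both 1 one_pos x).2, (cauchy_both (6 / 5) (by norm_num) x).2,
    (cauchy_both 6 (by norm_num) x).2]
  ring

lemma phi_int : Integrable phi := by
  simpa using (phi_trig (fun _ => 1) continuous_const (fun _ => by simp)).1

lemma phi_eq (ξ : ℝ) : phi ξ =
    256 / 25 * (ξ ^ 2 + 81 / 16) / ((ξ ^ 2 + 1) * (ξ ^ 2 + 36 / 25) * (ξ ^ 2 + 36)) := by
  unfold phi
  field_simp
  ring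

lemma phi_nonneg (ξ : ℝ) : 0 ≤ phi ξ := by
  rw [phi_eq]
  positivity

lemma phi_le (ξ : ℝ) : phi ξ ≤ ((1 + ξ ^ 2) * √(1 + ξ ^ 2))⁻¹ := by
  have h1 : 0 < 1 + ξ ^ 2 := by positivity
  have h2 : √(1 + ξ ^ 2) ^ 2 = 1 + ξ ^ 2 := Real.sq_sqrt h1.le
  have h3 : 1 ≤ √(1 + ξ ^ 2) := Real.one_le_sqrt.2 (by nlinarith [sq_nonneg ξ])
  rw [phi_eq, inv_eq_one_div, div_le_div_iff₀ (by positivity) (by positivity)]
  generalize √(1 + ξ ^ 2) = r at *
  have h4 : ξ ^ 2 = r ^ 2 - 1 := by linarith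
  obtain ⟨u, rfl⟩ : ∃ u, r = 1 + u := ⟨r - 1, by ring⟩
  have hu : 0 ≤ u := by linarith
  rw [h4]
  have h5 : 0 ≤ (1 + u) ^ 2 * (u * (u * (u - 78 / 25) ^ 2 + 616 / 625 * u + 64 / 25)) := by
    positivity
  nlinarith [h5]

lemma phi_rho (q : ℝ × ℝ) : phi q.1 * phi q.2 ≤ rho 1 q := by
  refine (mul_le_mul (phi_le _) (phi_le _) (phi_nonneg _) (by positivity)).trans ?_
  have h1 : 1 ^ 2 + q.1 ^ 2 + q.2 ^ 2 ≤ (1 + q.1 ^ 2) * (1 + q.2 ^ 2) := by
    nlinarith [mul_nonneg (sq_nonneg q.1) (sq_nonneg q.2)]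
  have h2 := Real.sqrt_le_sqrt h1
  rw [Real.sqrt_mul (by positivity)] at h2
  have h0 : 0 < 1 ^ 2 + q.1 ^ 2 + q.2 ^ 2 := by positivity
  rw [rho, one_mul, ← mul_inv, mul_mul_mul_comm]
  exact inv_anti₀ (by positivity) (mul_le_mul h1 h2 (by positivity) (by positivity))

lemma prod_val (a b : ℝ) :
    ∫ q : ℝ × ℝ, cos (q.1 * a + q.2 * b) * (phi q.1 * phi q.2) =
      2 * π * kk a * (2 * π * kk b) := by
  have ic := fun x => (phi_trig (fun ξ => cos (ξ * x)) (by fun_prop)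
    (fun _ => abs_cos_le_one _)).1
  have is := fun x => (phi_trig (fun ξ => sin (ξ * x)) (by fun_prop)
    (fun _ => abs_sin_le_one _)).1
  have e : ∀ q : ℝ × ℝ, cos (q.1 * a + q.2 * b) * (phi q.1 * phi q.2) =
      cos (q.1 * a) * phi q.1 * (cos (q.2 * b) * phi q.2) -
        sin (q.1 * a) * phi q.1 * (sin (q.2 * b) * phi q.2) := by
    intro q
    rw [cos_add]
    ring
  simp only [e]
  rw [Measure.volume_eq_prod, integral_sub ((ic a).mul_prod (ic b)) ((is a).mul_prod (is b)),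
    integral_prod_mul (fun ξ => cos (ξ * a) * phi ξ) (fun ξ => cos (ξ * b) * phi ξ),
    integral_prod_mul (fun ξ => sin (ξ * a) * phi ξ) (fun ξ => sin (ξ * b) * phi ξ),
    phi_cos, phi_cos, phi_sin]
  ring

lemma prod_le {ι : Type} [Fintype ι] (a b w : ι → ℝ) :
    2 * π * ∑ i, ∑ j, w i * w j * (kk (a i - a j) * kk (b i - b j)) ≤
      ∑ i, ∑ j, w i * w j * exp (-√((a i - a j) ^ 2 + (b i - b j) ^ 2)) := by
  have hi : Integrable (fun q : ℝ × ℝ => phi q.1 * phi q.2) := by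
    rw [Measure.volume_eq_prod]
    exact phi_int.mul_prod phi_int
  have h := compare _ _ hi (rho_int 1 one_pos) phi_rho a b w
  simp only [prod_val, planar 1 one_pos, one_mul] at h
  refine le_of_mul_le_mul_left ?_ (by positivity : 0 < 2 * π)
  simp only [Finset.mul_sum]
  refine le_trans (le_of_eq ?_) (h.trans (le_of_eq ?_)) <;>
    exact Finset.sum_congr rfl fun i _ => Finset.sum_congr rfl fun j _ => by ring

/-- The causal factor of the kernel. -/
noncomputable def GG (v : ℝ) : ℝ := 4 * ee 1 v - 7 / 2 * ee (6 / 5) v - 1 / 2 * ee 6 v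

/-- The causal factor, cut off. -/
noncomputable def gg (x u : ℝ) : ℝ := GG (max (x - u) 0)

lemma gg_cont (x : ℝ) : Continuous (gg x) := by
  have := ee_cont
  unfold gg GG
  fun_prop

lemma split (x t : ℝ) (h0 : 0 ≤ x) (h1 : x ≤ t) (F H : ℝ → ℝ) (hF : Continuous F)
    (hH : ∀ u, u ≤ x → HasDerivAt H (F u * GG (x - u)) u) :
    ∫ u in (0 : ℝ)..t, F u * gg x u = H x - H 0 := by
  have hc : Continuous fun u => F u * gg x u := hF.mul (gg_cont x)
  rw [← intervalIntegral.integral_add_adjacent_intervals (hc.intervalIntegrable 0 x)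
    (hc.intervalIntegrable x t)]
  have e1 : ∫ u in x..t, F u * gg x u = 0 := by
    rw [intervalIntegral.integral_congr (g := fun _ => 0), intervalIntegral.integral_zero]
    intro u hu
    rw [Set.uIcc_of_le h1] at hu
    simp only [gg]
    rw [max_eq_right (by linarith [hu.1]), GG, ee_zero, ee_zero, ee_zero]
    ring
  rw [e1, add_zero]
  refine intervalIntegral.integral_eq_sub_of_hasDerivAt (fun u hu => ?_)
    (hc.intervalIntegrable 0 x)
  rw [Set.uIcc_of_le h0] at hu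
  simp only [gg]
  rw [max_eq_left (by linarith [hu.2])]
  exact hH u hu.2

/-- The part of the kernel that comes from the negative half line. -/
noncomputable def Ph (x y : ℝ) : ℝ :=
  8 * (ee 1 x * ee 1 y) - 70 / 11 * (ee 1 x * ee (6 / 5) y) - 70 / 11 * (ee (6 / 5) x * ee 1 y) -
    2 / 7 * (ee 1 x * ee 6 y) - 2 / 7 * (ee 6 x * ee 1 y) +
    245 / 48 * (ee (6 / 5) x * ee (6 / 5) y) + 35 / 144 * (ee (6 / 5) x * ee 6 y) +
    35 / 144 * (ee 6 x * ee (6 / 5) y) + 1 / 48 * (ee 6 x * ee 6 y)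

lemma int_gg (x y t : ℝ) (hx : 0 ≤ x) (hy : 0 ≤ y) (hxt : x ≤ t) (hyt : y ≤ t) :
    ∫ u in (0 : ℝ)..t, gg y u * gg x u = kk (x - y) - Ph x y := by
  wlog h : x ≤ y generalizing x y
  · have h1 := this y x hy hx hyt hxt (le_of_not_ge h)
    have h2 : Ph x y = Ph y x := by
      unfold Ph
      ring
    have h3 : kk (x - y) = kk (y - x) := by
      unfold kk
      rw [abs_sub_comm]
    rw [h2, h3, ← h1]
    simp only [mul_comm]
  rw [split x t hx hxt (gg y) (fun u => Ph (x - u) (y - u)) (gg_cont y)]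
  · simp only [sub_self, sub_zero]
    rw [kk, abs_sub_comm, abs_of_nonneg (by linarith : 0 ≤ y - x), Ph, ee_zero, ee_zero, ee_zero]
    ring
  · intro u hu
    have d := fun p q : ℝ => (ee_deriv p x u).fun_mul (ee_deriv q y u)
    have h1 := (((((((((d 1 1).const_mul 8).fun_sub ((d 1 (6 / 5)).const_mul (70 / 11))).fun_sub
      ((d (6 / 5) 1).const_mul (70 / 11))).fun_sub ((d 1 6).const_mul (2 / 7))).fun_sub
      ((d 6 1).const_mul (2 / 7))).fun_add ((d (6 / 5) (6 / 5)).const_mul (245 / 48))).fun_add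
      ((d (6 / 5) 6).const_mul (35 / 144))).fun_add ((d 6 (6 / 5)).const_mul (35 / 144))).fun_add
      ((d 6 6).const_mul (1 / 48))
    refine h1.congr_deriv ?_
    rw [gg, max_eq_left (by linarith), GG, GG]
    ring

/-- The test function on the interval. -/
noncomputable def ff (u : ℝ) : ℝ := 1 - 1 / 10 * ee (9 / 4) u

lemma ff_cont : Continuous ff := by
  have := ee_cont
  unfold ff
  fun_prop

lemma int_fg (x t : ℝ) (hx : 0 ≤ x) (hxt : x ≤ t) :
    ∫ u in (0 : ℝ)..t, ff u * gg x u =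
      1 - (108 / 25 * ee 1 x - 13 / 4 * ee (6 / 5) x - 7 / 100 * ee 6 x) := by
  rw [split x t hx hxt ff (fun u => ee 1 (x - u) * (4 + 8 / 25 * ee (9 / 4) u) -
    ee (6 / 5) (x - u) * (35 / 12 + 1 / 3 * ee (9 / 4) u) -
    ee 6 (x - u) * (1 / 12 - 1 / 75 * ee (9 / 4) u)) ff_cont]
  · simp only [sub_self, sub_zero, ee_zero]
    ring
  · intro u _
    have d := ee_deriv' (9 / 4) u
    have h1 := (((ee_deriv 1 x u).fun_mul ((d.const_mul (8 / 25)).const_add 4)).fun_sub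
      ((ee_deriv (6 / 5) x u).fun_mul ((d.const_mul (1 / 3)).const_add (35 / 12)))).fun_sub
      ((ee_deriv 6 x u).fun_mul ((d.const_mul (1 / 75)).const_sub (1 / 12)))
    refine h1.congr_deriv ?_
    rw [ff, GG]
    ring

lemma line_ub {ι : Type} [Fintype ι] (t : ℝ) (ht : 40 ≤ t) (x w : ι → ℝ) (h0 : ∀ i, 0 ≤ x i)
    (h1 : ∀ i, x i ≤ t) :
    2 * ∑ i, w i - ∑ i, ∑ j, w i * w j * kk (x i - x j) ≤ t + 78 / 25 := by
  have cW : Continuous fun u => ∑ i, w i * gg (x i) u :=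
    continuous_finsetSum _ fun i _ => continuous_const.mul (gg_cont _)
  obtain ⟨A, hA⟩ : ∃ A, A = ∑ i, w i * ee 1 (x i) := ⟨_, rfl⟩
  obtain ⟨B, hB⟩ : ∃ B, B = ∑ i, w i * ee (6 / 5) (x i) := ⟨_, rfl⟩
  obtain ⟨C, hC⟩ : ∃ C, C = ∑ i, w i * ee 6 (x i) := ⟨_, rfl⟩
  have e1 : ∫ u in (0 : ℝ)..t, ff u * ∑ i, w i * gg (x i) u =
      ∑ i, w i - (108 / 25 * A - 13 / 4 * B - 7 / 100 * C) := by
    have e : ∀ u, ff u * ∑ i, w i * gg (x i) u = ∑ i, w i * (ff u * gg (x i) u) := by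
      intro u
      rw [Finset.mul_sum]
      exact Finset.sum_congr rfl fun i _ => by ring
    have c : ∀ i, Continuous fun u => w i * (ff u * gg (x i) u) := fun i =>
      continuous_const.mul (ff_cont.mul (gg_cont _))
    simp only [e]
    rw [intervalIntegral.integral_finsetSum fun i _ => (c i).intervalIntegrable _ _]
    simp only [intervalIntegral.integral_const_mul, fun i => int_fg (x i) t (h0 i) (h1 i), hA, hB,
      hC, Finset.mul_sum, ← Finset.sum_sub_distrib]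
    exact Finset.sum_congr rfl fun i _ => by ring
  have e2 : ∫ u in (0 : ℝ)..t, (∑ i, w i * gg (x i) u) ^ 2 =
      ∑ i, ∑ j, w i * w j * kk (x i - x j) - (8 * (A * A) - 70 / 11 * (A * B) - 70 / 11 * (B * A) -
        2 / 7 * (A * C) - 2 / 7 * (C * A) + 245 / 48 * (B * B) + 35 / 144 * (B * C) +
        35 / 144 * (C * B) + 1 / 48 * (C * C)) := by
    have e : ∀ u, (∑ i, w i * gg (x i) u) ^ 2 =
        ∑ i, ∑ j, w i * w j * (gg (x j) u * gg (x i) u) := by
      intro u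
      rw [sq, Finset.sum_mul_sum]
      exact Finset.sum_congr rfl fun i _ => Finset.sum_congr rfl fun j _ => by ring
    have c : ∀ i j, Continuous fun u => w i * w j * (gg (x j) u * gg (x i) u) := fun i j =>
      continuous_const.mul ((gg_cont _).mul (gg_cont _))
    simp only [e]
    rw [intervalIntegral.integral_finsetSum fun i _ =>
      (continuous_finsetSum _ fun j _ => c i j).intervalIntegrable _ _]
    simp only [fun i => intervalIntegral.integral_finsetSum (μ := volume) (a := 0) (b := t)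
      (s := Finset.univ) fun j _ => (c i j).intervalIntegrable _ _]
    simp only [intervalIntegral.integral_const_mul,
      fun i j => int_gg (x i) (x j) t (h0 i) (h0 j) (h1 i) (h1 j), hA, hB, hC, Finset.sum_mul_sum]
    simp only [Finset.mul_sum, ← Finset.sum_sub_distrib, ← Finset.sum_add_distrib]
    refine Finset.sum_congr rfl fun i _ => Finset.sum_congr rfl fun j _ => ?_
    unfold Ph
    ring
  have e3 : ∫ u in (0 : ℝ)..t, (1 - 19 / 100 * ee (9 / 4) u) =
      (t + 19 / 225 * ee (9 / 4) t) - (0 + 19 / 225 * ee (9 / 4) 0) := by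
    refine intervalIntegral.integral_eq_sub_of_hasDerivAt
      (f := fun u => u + 19 / 225 * ee (9 / 4) u) (fun u _ => ?_)
      ((continuous_const.sub (continuous_const.mul (ee_cont _))).intervalIntegrable _ _)
    refine ((hasDerivAt_id' u).fun_add ((ee_deriv' (9 / 4) u).const_mul (19 / 225))).congr_deriv ?_
    ring
  have i1 : IntervalIntegrable (fun u => 2 * (ff u * ∑ i, w i * gg (x i) u)) volume 0 t :=
    (continuous_const.mul (ff_cont.mul cW)).intervalIntegrable 0 t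
  have i2 : IntervalIntegrable (fun u => (∑ i, w i * gg (x i) u) ^ 2) volume 0 t :=
    (cW.pow 2).intervalIntegrable 0 t
  have h2 : ∫ u in (0 : ℝ)..t, (2 * (ff u * ∑ i, w i * gg (x i) u) - (∑ i, w i * gg (x i) u) ^ 2) ≤
      ∫ u in (0 : ℝ)..t, (1 - 19 / 100 * ee (9 / 4) u) := by
    refine intervalIntegral.integral_mono_on (by linarith) (i1.sub i2)
      ((continuous_const.sub (continuous_const.mul (ee_cont _))).intervalIntegrable _ _)
      fun u hu => ?_
    have h3 : ee (9 / 4) u ≤ 1 := Real.exp_le_one_iff.2 (by linarith [hu.1])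
    have h4 : 0 < ee (9 / 4) u := Real.exp_pos _
    generalize ∑ i, w i * gg (x i) u = W
    have h5 := sq_nonneg (ff u - W)
    rw [ff] at h5 ⊢
    nlinarith [mul_nonneg h4.le (sub_nonneg.2 h3)]
  rw [intervalIntegral.integral_sub i1 i2, intervalIntegral.integral_const_mul, e1, e2, e3,
    ee_zero] at h2
  have h3 : ee (9 / 4) t ≤ 1 / 91 := by
    have h4 := Real.add_one_le_exp (9 / 4 * t)
    rw [ee, Real.exp_neg, inv_eq_one_div]
    exact one_div_le_one_div_of_le (by norm_num) (by linarith)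
  have h4 := sq_nonneg ((4 * A - 8118 / 625) + 10 / 11 * (-7 / 2 * B + 9999 / 875) +
    2 / 7 * (-1 / 2 * C + 963 / 625))
  have h5 := sq_nonneg ((-7 / 2 * B + 9999 / 875) + 55 / 21 * (-1 / 2 * C + 963 / 625))
  have h6 := sq_nonneg (-1 / 2 * C + 963 / 625)
  nlinarith

end Pool.Agent.H483Z.IE
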