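import Pool.Agent.H483Z.IELine

set_option autoImplicit false

/-!
Magnitude of planar rectangles: upper and lower bounds, and the failure of the asymptotic
inclusion-exclusion principle.
-/

namespace Pool.Agent.H483Z.IE

open MeasureTheory Real Filter Topology Finset Pool.Agent.H483Z.Mag Pointwise

/-- The Euclidean plane. -/
abbrev E := EuclideanSpace ℝ (Fin 2)

lemma dist2 (x y : E) : dist x y = √((x 0 - y 0) ^ 2 + (x 1 - y 1) ^ 2) := by
  rw [EuclideanSpace.dist_eq, Fin.sum_univ_two, Real.dist_eq, Real.dist_eq, sq_abs, sq_abs]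

section psd

variable {ι : Type} [Fintype ι]

lemma psd (x : ι → E) (w : ι → ℝ) : 0 ≤ QF (fun i j => exp (-dist (x i) (x j))) w := by
  have h := compare (fun _ => 0) (rho 1) (integrable_zero _ _ _) (rho_int 1 one_pos)
    (fun q => by unfold rho; positivity) (fun i => x i 0) (fun i => x i 1) w
  simp only [mul_zero, integral_zero, Finset.sum_const_zero, planar 1 one_pos, one_mul] at h
  refine le_of_mul_le_mul_left ?_ (by positivity : 0 < 2 * π)
  simp only [QF, dist2, Finset.mul_sum, mul_zero]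
  exact h.trans (le_of_eq (Finset.sum_congr rfl fun i _ => Finset.sum_congr rfl fun j _ => by ring))

lemma scale (x : ι → E) (w : ι → ℝ) (s : ℝ) (hs : 1 ≤ s) :
    ∑ i, ∑ j, w i * w j * exp (-(s * dist (x i) (x j))) ≤
      s * QF (fun i j => exp (-dist (x i) (x j))) w := by
  have hs0 : 0 < s := by linarith
  have h := compare (rho s) (fun q => s * rho 1 q) (rho_int s hs0)
    ((rho_int 1 one_pos).const_mul s) (fun q => by
      unfold rho
      rw [one_mul]
      have h1 : 1 ^ 2 + q.1 ^ 2 + q.2 ^ 2 ≤ s ^ 2 + q.1 ^ 2 + q.2 ^ 2 := by nlinarith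
      have h0 : 0 < 1 ^ 2 + q.1 ^ 2 + q.2 ^ 2 := by positivity
      refine mul_le_mul_of_nonneg_left (inv_anti₀ (by positivity) ?_) hs0.le
      exact mul_le_mul h1 (Real.sqrt_le_sqrt h1) (by positivity) (by positivity))
    (fun i => x i 0) (fun i => x i 1) w
  have e : ∀ (a b : ℝ) (q : ℝ × ℝ), cos (q.1 * a + q.2 * b) * (s * rho 1 q) =
      s * (cos (q.1 * a + q.2 * b) * rho 1 q) := fun a b q => by ring
  simp only [e, integral_const_mul, planar 1 one_pos, planar s hs0, one_mul] at h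
  refine le_of_mul_le_mul_left ?_ (by positivity : 0 < 2 * π)
  simp only [QF, dist2, Finset.mul_sum]
  refine le_trans (le_of_eq ?_) (h.trans (le_of_eq ?_)) <;>
    exact Finset.sum_congr rfl fun i _ => Finset.sum_congr rfl fun j _ => by ring

lemma posDef [DecidableEq ι] (x : ι → E) (hx : Function.Injective x) :
    (Matrix.of fun i j => exp (-dist (x i) (x j))).PosDef := by
  refine Matrix.PosDef.of_dotProduct_mulVec_pos ?_ fun w hw => ?_
  · ext i j
    simp [dist_comm]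
  rw [QF_eq]
  change 0 < QF (fun i j => exp (-dist (x i) (x j))) w
  by_contra hcon
  push Not at hcon
  have h1 : Tendsto (fun s : ℝ => ∑ i, ∑ j, w i * w j * exp (-(s * dist (x i) (x j)))) atTop
      (𝓝 (∑ i, ∑ j, w i * w j * if i = j then 1 else 0)) := by
    refine tendsto_finsetSum _ fun i _ => tendsto_finsetSum _ fun j _ => Tendsto.const_mul _ ?_
    split_ifs with h
    · subst h
      simp
    · have h2 : 0 < dist (x i) (x j) := dist_pos.2 (hx.ne h)
      exact Real.tendsto_exp_neg_atTop_nhds_zero.comp (tendsto_id.atTop_mul_const h2)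
  have h2 := le_of_tendsto h1 ((eventually_ge_atTop 1).mono fun s hs =>
    (scale x w s hs).trans (mul_nonpos_of_nonneg_of_nonpos (by linarith) hcon))
  simp only [mul_ite, mul_one, mul_zero, Finset.sum_ite_eq, Finset.mem_univ, if_true] at h2
  apply hw
  funext i
  have h3 := Finset.single_le_sum (f := fun i => w i * w i) (fun i _ => mul_self_nonneg _)
    (Finset.mem_univ i)
  exact mul_self_eq_zero.1 (le_antisymm (h3.trans h2) (mul_self_nonneg _))

end psd

/-- `N` bounds the energy of all weighted finite families of points of `S`. -/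
def UB (S : Set E) (N : ℝ) : Prop :=
  ∀ (ι : Type) [Fintype ι] (x : ι → E) (w : ι → ℝ), (∀ i, x i ∈ S) →
    2 * ∑ i, w i - QF (fun i j => exp (-dist (x i) (x j))) w ≤ N

open Classical in
/-- The magnitude of a finite set. -/
noncomputable def val (F : Finset E) : ℝ :=
  ∑ i : ↥F, ∑ j : ↥F, (Matrix.of (fun x y : ↥F => Real.exp (-dist x.1 y.1)))⁻¹ i j

/-- The magnitude of a set. -/
noncomputable def MM (S : Set E) : ℝ := ⨆ F : Finset E, ⨆ (_ : (↑F : Set E) ⊆ S), val F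

lemma val_spec (F : Finset E) : ∃ w : F → ℝ, (∀ k : F, ∑ l : F, exp (-dist k.1 l.1) * w l = 1) ∧
    val F = ∑ k, w k * 1 := by
  classical
  exact ⟨fun l => ∑ j, (Matrix.of (fun x y : ↥F => Real.exp (-dist x.1 y.1)))⁻¹ l j * 1,
    inv_solve _ (posDef (fun k : F => k.1) Subtype.val_injective) (fun _ => 1), by simp [val]⟩

lemma UB.nonneg {S : Set E} {N : ℝ} (h : UB S N) : 0 ≤ N := by
  simpa [QF] using h Empty (fun i => i.elim) (fun _ => 0) (fun i => i.elim)

lemma UB.val_le {S : Set E} {N : ℝ} (h : UB S N) (F : Finset E) (hF : (↑F : Set E) ⊆ S) :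
    val F ≤ N := by
  obtain ⟨w, hw, e⟩ := val_spec F
  have h1 := h F (fun k => k.1) w (fun k => hF k.2)
  have h2 := QF_solve (fun k l : F => exp (-dist k.1 l.1)) w _ hw w
  rw [QF, h2] at h1
  simp only [mul_one] at h1 e
  linarith

lemma UB.MM_le {S : Set E} {N : ℝ} (h : UB S N) : MM S ≤ N :=
  Real.iSup_le (fun F => Real.iSup_le (fun hF => h.val_le F hF) h.nonneg) h.nonneg

lemma UB.self {S : Set E} {N : ℝ} (h : UB S N) : UB S (MM S) := by
  classical
  intro ι _ x w hx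
  obtain ⟨F, hF⟩ : ∃ F : Finset E, F = Finset.univ.image x := ⟨_, rfl⟩
  have hm : ∀ i, x i ∈ F := fun i => hF ▸ Finset.mem_image_of_mem x (Finset.mem_univ i)
  have hS : (↑F : Set E) ⊆ S := by
    intro y hy
    rw [hF] at hy
    obtain ⟨i, -, rfl⟩ := Finset.mem_image.1 hy
    exact hx i
  obtain ⟨v, hv, e⟩ := val_spec F
  have h1 := var_le (fun k l : F => exp (-dist k.1 l.1)) (fun i j => by rw [dist_comm])
    (psd fun k : F => k.1) v _ hv (mass (fun i => (⟨x i, hm i⟩ : F)) w)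
  have h2 := sum_mass (fun i => (⟨x i, hm i⟩ : F)) w (fun _ => 1)
  have h3 := sum_sum_mass (fun i => (⟨x i, hm i⟩ : F)) w (fun k l : F => exp (-dist k.1 l.1))
  have h4 : val F ≤ MM S := by
    refine le_ciSup_of_le ⟨N, ?_⟩ F ?_
    · rintro _ ⟨F', rfl⟩
      exact Real.iSup_le (fun hF => h.val_le F' hF) h.nonneg
    · rw [ciSup_pos hS]
  rw [← e, ← h2, QF, ← h3] at h1
  simp only [mul_one] at h1
  exact h1.trans h4

lemma UB.transfer {S T : Set E} {N : ℝ} (h : UB S N) (v : E) (hT : ∀ y ∈ T, y - v ∈ S) :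
    UB T N := by
  intro ι _ x w hx
  simpa only [dist_sub_right] using h ι (fun i => x i - v) w (fun i => hT _ (hx i))

lemma UB.rows {S : Set E} {N : ℝ} (h : UB S N) {ι : Type} [Fintype ι] (x : ι → E)
    (hx : ∀ i, x i ∈ S) (σ : ℝ) (hσ : 0 < σ) (hr : ∀ i, ∑ j, exp (-dist (x i) (x j)) ≤ σ) :
    (Fintype.card ι : ℝ) ≤ σ * N := by
  have h1 := h ι x (fun _ => σ⁻¹) hx
  have h2 : QF (fun i j => exp (-dist (x i) (x j))) (fun _ => σ⁻¹) ≤ ∑ _i : ι, σ⁻¹ := by
    refine Finset.sum_le_sum fun i _ => ?_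
    rw [← Finset.mul_sum]
    refine (mul_le_mul_of_nonneg_left (hr i) (by positivity)).trans (le_of_eq ?_)
    field_simp
  rw [Finset.sum_const, Finset.card_univ, nsmul_eq_mul] at h1 h2
  rw [← inv_mul_le_iff₀ hσ]
  linarith

lemma sum_int (g : ℝ → ℝ) (hg : Integrable g) (h0 : ∀ x, 0 ≤ g x) (h C : ℝ) (hh : 0 < h)
    (hC0 : 0 ≤ C) (hC : ∀ x y, |x - y| ≤ h → g x ≤ C * g y) (n : ℕ) :
    ∑ i ∈ Finset.range n, h * g (i * h) ≤ C * ∫ x, g x := by
  have h1 := intervalIntegral.sum_integral_adjacent_intervals (f := g) (μ := volume)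
    (a := fun k : ℕ => (k : ℝ) * h) (n := n) (fun k _ => hg.intervalIntegrable)
  have h2 : ∫ x in ((0 : ℕ) : ℝ) * h..(n : ℝ) * h, g x ≤ ∫ x, g x := by
    rw [intervalIntegral.integral_of_le (by simp; positivity)]
    exact setIntegral_le_integral hg (Eventually.of_forall h0)
  refine le_trans ?_ (mul_le_mul_of_nonneg_left (h1.le.trans h2) hC0)
  rw [Finset.mul_sum]
  refine Finset.sum_le_sum fun i _ => ?_
  rw [← intervalIntegral.integral_const_mul]
  have h3 : h * g (i * h) = ∫ _ in (i : ℝ) * h..((i + 1 : ℕ) : ℝ) * h, g (i * h) := by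
    rw [intervalIntegral.integral_const, smul_eq_mul]
    push_cast
    ring
  rw [h3]
  refine intervalIntegral.integral_mono_on (by push_cast; nlinarith) intervalIntegrable_const
    (hg.const_mul C).intervalIntegrable fun y hy => hC _ _ ?_
  have h4 := hy.2
  push_cast at h4
  rw [abs_le]
  constructor <;> nlinarith [hy.1]

lemma lim_exp (A N c : ℝ) (h : ∀ h : ℝ, 0 < h → A ≤ exp (c * h) * N) : A ≤ N := by
  have h1 : Tendsto (fun h : ℝ => exp (c * h) * N) (𝓝[>] 0) (𝓝 (exp (c * 0) * N)) :=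
    (Continuous.tendsto (by fun_prop) 0).mono_left nhdsWithin_le_nhds
  rw [mul_zero, Real.exp_zero, one_mul] at h1
  exact ge_of_tendsto h1 (eventually_mem_nhdsWithin.mono h)

lemma int_abs (b : ℝ) : ∫ x : ℝ, exp (-|b - x|) = 2 := by
  rw [integral_sub_left_eq_self (fun x => exp (-|x|)) volume b,
    integral_comp_abs (f := fun x => exp (-x)), integral_exp_neg_Ioi_zero, mul_one]

lemma integrable_abs (b : ℝ) : Integrable fun x : ℝ => exp (-|b - x|) :=
  Integrable.of_integral_ne_zero (by rw [int_abs]; norm_num)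

lemma grid (L h : ℝ) (hL : 0 ≤ L) (hh : 0 < h) :
    ∃ n : ℕ, L ≤ n * h ∧ ∀ i : Fin n, 0 ≤ (i : ℝ) * h ∧ (i : ℝ) * h ≤ L := by
  refine ⟨⌊L / h⌋₊ + 1, ?_, fun i => ⟨by positivity, ?_⟩⟩
  · rw [← div_le_iff₀ hh]
    push_cast
    exact (Nat.lt_floor_add_one _).le
  · rw [← le_div_iff₀ hh]
    refine le_trans ?_ (Nat.floor_le (by positivity))
    exact_mod_cast Nat.lt_succ_iff.1 i.2

lemma UB.seg {S : Set E} {N : ℝ} (h : UB S N) (L : ℝ) (hL : 0 ≤ L) (p : ℝ → E)
    (hp : ∀ u v, dist (p u) (p v) = |u - v|) (hS : ∀ u, 0 ≤ u → u ≤ L → p u ∈ S) : L / 2 ≤ N := by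
  refine lim_exp _ _ 1 fun δ hδ => ?_
  obtain ⟨n, hn, hi⟩ := grid L δ hL hδ
  have h1 := h.rows (fun i : Fin n => p (i * δ)) (fun i => hS _ (hi i).1 (hi i).2)
    (exp δ * 2 / δ) (by positivity) (fun i => by
      simp only [hp]
      rw [Fin.sum_univ_eq_sum_range (fun j => exp (-|(i : ℝ) * δ - (j : ℝ) * δ|)), le_div_iff₀' hδ,
        Finset.mul_sum, ← int_abs (i * δ)]
      refine sum_int (fun x => exp (-|(i : ℝ) * δ - x|)) (integrable_abs _)
        (fun _ => (exp_pos _).le) δ _ hδ (exp_pos _).le (fun x y hxy => ?_) n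
      rw [← Real.exp_add]
      refine Real.exp_le_exp.2 ?_
      have := abs_sub_le ((i : ℝ) * δ) x y
      linarith)
  rw [Fintype.card_fin, div_mul_eq_mul_div, le_div_iff₀ hδ] at h1
  rw [one_mul]
  linarith

lemma sqrt_lip (u u' v : ℝ) : √(u' ^ 2 + v ^ 2) ≤ √(u ^ 2 + v ^ 2) + |u - u'| := by
  have h1 : |u| ≤ √(u ^ 2 + v ^ 2) := Real.abs_le_sqrt (by nlinarith [sq_nonneg v])
  have h2 : √(u ^ 2 + v ^ 2) ^ 2 = u ^ 2 + v ^ 2 := Real.sq_sqrt (by positivity)
  refine Real.sqrt_le_iff.2 ⟨by positivity, ?_⟩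
  have h3 := abs_nonneg (u - u')
  have h4 : -(|u| * |u - u'|) ≤ u * (u - u') := by
    rw [← abs_mul]
    exact neg_abs_le _
  nlinarith [sq_abs (u - u'), mul_le_mul_of_nonneg_right h1 h3]

lemma int_plane (a b : ℝ) : ∫ q : ℝ × ℝ, exp (-√((a - q.1) ^ 2 + (b - q.2) ^ 2)) = 2 * π := by
  have h1 := integral_sub_left_eq_self (fun q : ℝ × ℝ => exp (-√(q.1 ^ 2 + q.2 ^ 2))) volume (a, b)
  have h2 := Complex.integral_exp_neg_rpow (p := 1) le_rfl
  have h3 := Complex.volume_preserving_equiv_real_prod.integral_comp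
    Complex.measurableEquivRealProd.measurableEmbedding
    (fun q : ℝ × ℝ => exp (-√(q.1 ^ 2 + q.2 ^ 2)))
  have h4 : Real.Gamma (2 / 1 + 1) = 2 := by
    rw [div_one, Real.Gamma_add_one two_ne_zero, Real.Gamma_two, mul_one]
  rw [h4] at h2
  refine h1.trans (h3.symm.trans ?_)
  rw [mul_comm, ← h2]
  refine integral_congr_ae (Eventually.of_forall fun z => ?_)
  simp [Complex.norm_eq_sqrt_sq_add_sq]

lemma row_plane (a b δ : ℝ) (hδ : 0 < δ) (n : ℕ) :
    ∑ i ∈ Finset.range n, ∑ j ∈ Finset.range n,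
      exp (-√((a - i * δ) ^ 2 + (b - j * δ) ^ 2)) ≤ exp (2 * δ) * (2 * π) / δ ^ 2 := by
  have hs : ∀ ξ : ℝ, Integrable fun η : ℝ => exp (-√((a - ξ) ^ 2 + (b - η) ^ 2)) := by
    intro ξ
    refine (integrable_abs b).mono' (Continuous.aestronglyMeasurable (by fun_prop))
      (Eventually.of_forall fun η => ?_)
    rw [Real.norm_of_nonneg (exp_pos _).le]
    exact Real.exp_le_exp.2 (neg_le_neg (Real.abs_le_sqrt (by nlinarith [sq_nonneg (a - ξ)])))
  have hl : ∀ c v x y : ℝ, |x - y| ≤ δ →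
      exp (-√((c - x) ^ 2 + v ^ 2)) ≤ exp δ * exp (-√((c - y) ^ 2 + v ^ 2)) := by
    intro c v x y hxy
    rw [← Real.exp_add]
    refine Real.exp_le_exp.2 ?_
    have h1 := sqrt_lip (c - x) (c - y) v
    rw [sub_sub_sub_cancel_left, abs_sub_comm] at h1
    linarith
  have hI : Integrable fun q : ℝ × ℝ => exp (-√((a - q.1) ^ 2 + (b - q.2) ^ 2)) :=
    Integrable.of_integral_ne_zero (by rw [int_plane]; positivity)
  have hV := int_plane a b
  rw [Measure.volume_eq_prod] at hI hV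
  rw [integral_prod _ hI] at hV
  have h1 := sum_int (fun ξ => ∫ η : ℝ, exp (-√((a - ξ) ^ 2 + (b - η) ^ 2))) hI.integral_prod_left
    (fun _ => integral_nonneg fun _ => (exp_pos _).le) δ (exp δ) hδ (exp_pos _).le
    (fun x y hxy => by
      rw [← integral_const_mul]
      exact integral_mono (hs x) ((hs y).const_mul _) fun η => hl a _ x y hxy) n
  have h2 : ∀ ξ : ℝ, δ * ∑ j ∈ Finset.range n, exp (-√((a - ξ) ^ 2 + (b - j * δ) ^ 2)) ≤
      exp δ * ∫ η : ℝ, exp (-√((a - ξ) ^ 2 + (b - η) ^ 2)) := by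
    intro ξ
    rw [Finset.mul_sum]
    refine sum_int (fun η => exp (-√((a - ξ) ^ 2 + (b - η) ^ 2))) (hs ξ)
      (fun _ => (exp_pos _).le) δ _ hδ (exp_pos _).le (fun x y hxy => ?_) n
    simpa only [add_comm] using hl b (a - ξ) x y hxy
  rw [hV] at h1
  rw [le_div_iff₀' (by positivity), two_mul δ, Real.exp_add, mul_assoc, Finset.mul_sum]
  refine le_trans ?_ (mul_le_mul_of_nonneg_left h1 (exp_pos δ).le)
  rw [Finset.mul_sum]
  refine Finset.sum_le_sum fun i _ => ?_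
  have := mul_le_mul_of_nonneg_left (h2 (i * δ)) hδ.le
  nlinarith

/-- A closed rectangle. -/
def bx (a b c d : ℝ) : Set E := {x | a ≤ x 0 ∧ x 0 ≤ b ∧ c ≤ x 1 ∧ x 1 ≤ d}

lemma UB.sq {N T : ℝ} (h : UB (bx 0 T 0 T) N) (hT : 0 ≤ T) : T ^ 2 / (2 * π) ≤ N := by
  refine lim_exp _ _ 2 fun δ hδ => ?_
  obtain ⟨n, hn, hi⟩ := grid T δ hT hδ
  have h1 := h.rows (fun k : Fin n × Fin n => (!₂[(k.1 : ℝ) * δ, (k.2 : ℝ) * δ] : E))
    (fun k => ⟨(hi k.1).1, (hi k.1).2, (hi k.2).1, (hi k.2).2⟩)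
    (exp (2 * δ) * (2 * π) / δ ^ 2) (by positivity) (fun k => by
      refine le_trans (le_of_eq ?_) (row_plane (k.1 * δ) (k.2 * δ) δ hδ n)
      rw [Fintype.sum_prod_type, ← Fin.sum_univ_eq_sum_range (fun i => ∑ j ∈ Finset.range n,
        exp (-√(((k.1 : ℝ) * δ - i * δ) ^ 2 + ((k.2 : ℝ) * δ - j * δ) ^ 2)))]
      refine Finset.sum_congr rfl fun i _ => ?_
      rw [← Fin.sum_univ_eq_sum_range (fun j =>
        exp (-√(((k.1 : ℝ) * δ - i * δ) ^ 2 + ((k.2 : ℝ) * δ - j * δ) ^ 2)))]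
      refine Finset.sum_congr rfl fun j _ => ?_
      rw [dist2]
      rfl)
  rw [Fintype.card_prod, Fintype.card_fin, div_mul_eq_mul_div, le_div_iff₀ (by positivity)] at h1
  push_cast at h1
  rw [div_le_iff₀ (by positivity)]
  have h2 : T ^ 2 ≤ (n * δ) ^ 2 := pow_le_pow_left₀ hT hn 2
  nlinarith

lemma line_psd {ι : Type} [Fintype ι] (t : ℝ) (ht : 40 ≤ t) (x : ι → ℝ) (h0 : ∀ i, 0 ≤ x i)
    (h1 : ∀ i, x i ≤ t) :
    (Matrix.of fun i j => (t + 78 / 25) * kk (x i - x j) - 1).PosSemidef := by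
  refine posSemidef_of _ (fun i j => by rw [kk, kk, abs_sub_comm]) fun ν => ?_
  have h2 := discrim_le_zero (a := QF (fun i j => kk (x i - x j)) ν) (b := -2 * ∑ i, ν i)
    (c := t + 78 / 25) (fun r => by
      have h3 := line_ub t ht x (fun i => r * ν i) h0 h1
      have h4 := QF_smul (fun i j => kk (x i - x j)) r ν
      rw [QF] at h4
      rw [h4, ← Finset.mul_sum] at h3
      linarith)
  have h5 : QF (fun i j => (t + 78 / 25) * kk (x i - x j) - 1) ν =
      (t + 78 / 25) * QF (fun i j => kk (x i - x j)) ν - (∑ i, ν i) * ∑ i, ν i := by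
    simp only [QF, Finset.sum_mul_sum]
    simp only [Finset.mul_sum, ← Finset.sum_sub_distrib]
    exact Finset.sum_congr rfl fun i _ => Finset.sum_congr rfl fun j _ => by ring
  rw [discrim] at h2
  rw [h5]
  linarith

lemma ub_sq (t : ℝ) (ht : 40 ≤ t) : UB (bx 0 t 0 t) ((t + 78 / 25) ^ 2 / (2 * π)) := by
  intro ι _ x w hx
  have p1 := line_psd t ht (fun i => x i 0) (fun i => (hx i).1) (fun i => (hx i).2.1)
  have p2 := line_psd t ht (fun i => x i 1) (fun i => (hx i).2.2.1) (fun i => (hx i).2.2.2)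
  have h1 := ((p1.hadamard p2).add (p1.add p2)).dotProduct_mulVec_nonneg w
  have h2 := prod_le (fun i => x i 0) (fun i => x i 1) w
  rw [QF_eq] at h1
  obtain ⟨N, hN⟩ : ∃ N, N = t + 78 / 25 := ⟨_, rfl⟩
  have hN0 : 0 < N := by linarith
  rw [← hN] at h1 ⊢
  have h3 : (∑ i, w i) * ∑ i, w i ≤
      N ^ 2 * ∑ i, ∑ j, w i * w j * (kk (x i 0 - x j 0) * kk (x i 1 - x j 1)) := by
    rw [← sub_nonneg]
    refine h1.trans (le_of_eq ?_)
    simp only [QF, Finset.sum_mul_sum]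
    simp only [Finset.mul_sum, ← Finset.sum_sub_distrib]
    refine Finset.sum_congr rfl fun i _ => Finset.sum_congr rfl fun j _ => ?_
    simp only [Matrix.add_apply, Matrix.hadamard_apply, Matrix.of_apply]
    ring
  simp only [QF, dist2]
  generalize ∑ i, ∑ j, w i * w j * exp (-√((x i 0 - x j 0) ^ 2 + (x i 1 - x j 1) ^ 2)) = Q at *
  generalize ∑ i, ∑ j, w i * w j * (kk (x i 0 - x j 0) * kk (x i 1 - x j 1)) = P at *
  generalize ∑ i, w i = S at *
  obtain ⟨C, hC⟩ : ∃ C, C = N ^ 2 / (2 * π) := ⟨_, rfl⟩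
  have hC0 : 0 < C := by rw [hC]; positivity
  have h4 : N ^ 2 = C * (2 * π) := by rw [hC]; field_simp
  rw [← hC]
  have h5 : S * S ≤ C * Q := by
    rw [h4, mul_assoc] at h3
    exact h3.trans (mul_le_mul_of_nonneg_left h2 hC0.le)
  refine le_of_mul_le_mul_left ?_ hC0
  nlinarith [sq_nonneg (S - C)]

lemma bx_compact (a b c d : ℝ) : IsCompact (bx a b c d) := by
  refine Metric.isCompact_of_isClosed_isBounded ?_ ?_
  · have c : ∀ i, Continuous fun x : E => x i := fun i => by fun_prop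
    exact (isClosed_le continuous_const (c 0)).inter ((isClosed_le (c 0) continuous_const).inter
      ((isClosed_le continuous_const (c 1)).inter (isClosed_le (c 1) continuous_const)))
  · refine Metric.isBounded_iff.2 ⟨√((b - a) ^ 2 + (d - c) ^ 2), fun x hx y hy => ?_⟩
    obtain ⟨h1, h2, h3, h4⟩ := hx
    obtain ⟨h5, h6, h7, h8⟩ := hy
    rw [dist2]
    refine Real.sqrt_le_sqrt (add_le_add ?_ ?_) <;> apply sq_le_sq' <;> linarith

lemma bx_convex (a b c d : ℝ) : Convex ℝ (bx a b c d) := by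
  rintro x ⟨h1, h2, h3, h4⟩ y ⟨h5, h6, h7, h8⟩ r s hr hs hrs
  obtain rfl : s = 1 - r := by linarith
  simp only [bx, Set.mem_ofPred_eq, PiLp.add_apply, PiLp.smul_apply, smul_eq_mul]
  refine ⟨?_, ?_, ?_, ?_⟩ <;> nlinarith

lemma smul_bx (t a b c d : ℝ) (ht : 0 < t) :
    t • bx a b c d = bx (t * a) (t * b) (t * c) (t * d) := by
  ext x
  rw [Set.mem_smul_set_iff_inv_smul_mem₀ ht.ne']
  simp only [bx, Set.mem_ofPred_eq, PiLp.smul_apply, smul_eq_mul, le_inv_mul_iff₀ ht,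
    inv_mul_le_iff₀ ht]

lemma ub_self (t a b c d : ℝ) (ht : 40 ≤ t) (ha : 0 ≤ a) (hb : b ≤ 2 * t) (hc : 0 ≤ c)
    (hd : d ≤ 2 * t) : UB (bx a b c d) (MM (bx a b c d)) := by
  refine UB.self ((ub_sq (2 * t) (by linarith)).transfer 0 ?_)
  rintro y ⟨h1, h2, h3, h4⟩
  rw [sub_zero]
  exact ⟨by linarith, by linarith, by linarith, by linarith⟩

theorem main (h : ∀ A B : Set E, IsCompact A → IsCompact B → Convex ℝ A → Convex ℝ B →
    Convex ℝ (A ∪ B) →
    Tendsto (fun t : ℝ => MM (t • (A ∪ B)) + MM (t • (A ∩ B)) - MM (t • A) - MM (t • B))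
      atTop (𝓝 0)) : False := by
  have u1 : bx 0 1 0 1 ∪ bx 1 2 0 1 = bx 0 2 0 1 := by
    ext x
    simp only [bx, Set.mem_union, Set.mem_ofPred_eq]
    grind
  have n1 : bx 0 1 0 1 ∩ bx 1 2 0 1 = bx 1 1 0 1 := by
    ext x
    simp only [bx, Set.mem_inter_iff, Set.mem_ofPred_eq]
    grind
  have u2 : bx 0 2 0 1 ∪ bx 0 2 1 2 = bx 0 2 0 2 := by
    ext x
    simp only [bx, Set.mem_union, Set.mem_ofPred_eq]
    grind
  have n2 : bx 0 2 0 1 ∩ bx 0 2 1 2 = bx 0 2 1 1 := by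
    ext x
    simp only [bx, Set.mem_inter_iff, Set.mem_ofPred_eq]
    grind
  have h1 := h _ _ (bx_compact 0 1 0 1) (bx_compact 1 2 0 1) (bx_convex _ _ _ _)
    (bx_convex _ _ _ _) (u1 ▸ bx_convex _ _ _ _)
  have h2 := h _ _ (bx_compact 0 2 0 1) (bx_compact 0 2 1 2) (bx_convex _ _ _ _)
    (bx_convex _ _ _ _) (u2 ▸ bx_convex _ _ _ _)
  rw [u1, n1] at h1
  rw [u2, n2] at h2
  obtain ⟨D, hD⟩ : ∃ D : ℝ → ℝ, D = fun t => MM (bx 0 t 0 t) := ⟨_, rfl⟩
  have key : ∀ᶠ t : ℝ in atTop, D (2 * t) ≤ 4 * D t - 2 * t + 1 := by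
    filter_upwards [h1.eventually (gt_mem_nhds (by norm_num : (0 : ℝ) < 1 / 3)),
      h2.eventually (gt_mem_nhds (by norm_num : (0 : ℝ) < 1 / 3)), eventually_ge_atTop 40]
      with t e1 e2 ht
    have ht0 : 0 < t := by linarith
    simp only [smul_bx _ _ _ _ _ ht0, mul_zero, mul_one, mul_comm t 2] at e1 e2
    have a1 : MM (bx t (2 * t) 0 t) ≤ MM (bx 0 t 0 t) := by
      refine ((ub_self t 0 t 0 t ht le_rfl (by linarith) le_rfl (by linarith)).transfer
        !₂[t, 0] ?_).MM_le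
      rintro y ⟨h1, h2, h3, h4⟩
      refine ⟨?_, ?_, ?_, ?_⟩ <;> simp <;> linarith
    have a2 : MM (bx 0 (2 * t) t (2 * t)) ≤ MM (bx 0 (2 * t) 0 t) := by
      refine ((ub_self t 0 (2 * t) 0 t ht le_rfl le_rfl le_rfl (by linarith)).transfer
        !₂[0, t] ?_).MM_le
      rintro y ⟨h1, h2, h3, h4⟩
      refine ⟨?_, ?_, ?_, ?_⟩ <;> simp <;> linarith
    have a3 : t / 2 ≤ MM (bx t t 0 t) :=
      (ub_self t t t 0 t ht ht0.le (by linarith) le_rfl (by linarith)).seg t ht0.le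
        (fun u => !₂[t, u]) (fun u v => by simp [dist2, Real.sqrt_sq_eq_abs])
        (fun u h1 h2 => ⟨le_rfl, le_rfl, h1, h2⟩)
    have a4 : 2 * t / 2 ≤ MM (bx 0 (2 * t) t t) :=
      (ub_self t 0 (2 * t) t t ht le_rfl le_rfl ht0.le (by linarith)).seg (2 * t) (by linarith)
        (fun u => !₂[u, t]) (fun u v => by simp [dist2, Real.sqrt_sq_eq_abs])
        (fun u h1 h2 => ⟨h1, h2, le_rfl, le_rfl⟩)
    simp only [hD]
    linarith
  obtain ⟨t1, ht1⟩ := eventually_atTop.1 key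
  obtain ⟨t0, h01, h02⟩ : ∃ t0 : ℝ, t1 ≤ t0 ∧ 1000 ≤ t0 := ⟨max t1 1000, le_max_left _ _,
    le_max_right _ _⟩
  obtain ⟨α, hα⟩ : ∃ α : ℝ, α = (2 * π)⁻¹ := ⟨_, rfl⟩
  have hα0 : 0 < α := by rw [hα]; positivity
  have hα1 : α ≤ 25 / 157 := by
    rw [hα, inv_le_comm₀ (by positivity) (by norm_num)]
    linarith [Real.pi_gt_d2]
  have hup : ∀ t, 40 ≤ t → D t ≤ (t + 78 / 25) ^ 2 * α := fun t ht => by
    rw [hD, hα]
    exact (ub_sq t ht).MM_le
  have hlow : ∀ t, 40 ≤ t → t ^ 2 * α ≤ D t := fun t ht => by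
    rw [hD, hα]
    exact (ub_sq t ht).self.sq (by linarith)
  have hk : ∀ k : ℕ, D (2 ^ k * t0) - 2 ^ k * t0 - (2 ^ k * t0) ^ 2 * α + 1 / 3 ≤
      -(2 / 3) * (2 ^ k) ^ 2 := by
    intro k
    induction k with
    | zero =>
      have h3 := hup t0 (by linarith)
      simp only [pow_zero, one_mul]
      nlinarith [mul_le_mul_of_nonneg_left hα1 (by linarith : 0 ≤ t0)]
    | succ k ih =>
      have h3 : (1 : ℝ) ≤ 2 ^ k := one_le_pow₀ one_le_two
      have h4 := ht1 (2 ^ k * t0) (by nlinarith)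
      rw [pow_succ' (2 : ℝ) k, mul_assoc]
      nlinarith
  obtain ⟨k, hk2⟩ := pow_unbounded_of_one_lt (2 * t0) (one_lt_two (α := ℝ))
  have h3 := hk k
  have h4 := hlow (2 ^ k * t0) (by nlinarith)
  nlinarith

end Pool.Agent.H483Z.IE
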