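import Mathlib

set_option autoImplicit false

/-!
A dual form of Herglotz's theorem on the integer lattice: a positive semidefinite function pairs
nonnegatively with the coefficients of every nonnegative cosine polynomial.
-/

namespace Pool.Agent.H483Z.Mag

open Finset MeasureTheory Real Filter Topology

/-- The pairing of an integer vector with a real vector. -/
def ip {n : ℕ} (m : Fin n → ℤ) (θ : Fin n → ℝ) : ℝ := ∑ b, (m b : ℝ) * θ b

lemma ip_add {n : ℕ} (m m' : Fin n → ℤ) (θ : Fin n → ℝ) :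
    ip (m + m') θ = ip m θ + ip m' θ := by
  simp [ip, add_mul, Finset.sum_add_distrib]

lemma ip_sub {n : ℕ} (m m' : Fin n → ℤ) (θ : Fin n → ℝ) :
    ip (m - m') θ = ip m θ - ip m' θ := by
  simp [ip, sub_mul, Finset.sum_sub_distrib]

lemma continuous_ip {n : ℕ} (m : Fin n → ℤ) : Continuous (ip m) := by
  unfold ip
  fun_prop

/-- Lebesgue measure on the unit interval. -/
noncomputable def unitI : Measure ℝ := volume.restrict (Set.Ioc (0 : ℝ) 1)

instance : IsProbabilityMeasure unitI := ⟨by simp [unitI]⟩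

/-- Lebesgue measure on the unit cube. -/
noncomputable def cube (n : ℕ) : Measure (Fin n → ℝ) := Measure.pi (fun _ => unitI)

instance (n : ℕ) : IsProbabilityMeasure (cube n) := by
  unfold cube
  infer_instance

lemma one_dim (k : ℤ) :
    ∫ t : ℝ, Complex.exp (2 * π * Complex.I * k * t) ∂unitI = if k = 0 then 1 else 0 := by
  split_ifs with h
  · subst h
    simp
  · have hc : (2 * π * Complex.I * k : ℂ) ≠ 0 := by
      have h1 : (k : ℂ) ≠ 0 := by exact_mod_cast h
      have h2 : (π : ℂ) ≠ 0 := by exact_mod_cast Real.pi_ne_zero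
      simp [h1, h2, Complex.I_ne_zero]
    rw [unitI, ← intervalIntegral.integral_of_le zero_le_one, integral_exp_mul_complex hc]
    have h3 : Complex.exp (2 * π * Complex.I * k * ((1 : ℝ) : ℂ)) = 1 := by
      rw [← Complex.exp_int_mul_two_pi_mul_I k]
      congr 1
      push_cast
      ring
    rw [h3]
    simp

lemma integrable_cos {n : ℕ} (m : Fin n → ℤ) :
    Integrable (fun θ => cos (2 * π * ip m θ)) (cube n) := by
  refine Integrable.of_bound ?_ 1 (Eventually.of_forall fun θ => ?_)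
  · exact (Real.continuous_cos.comp (continuous_const.mul (continuous_ip m))).aestronglyMeasurable
  · exact Real.abs_cos_le_one _

lemma mean_cos {n : ℕ} (m : Fin n → ℤ) :
    ∫ θ, cos (2 * π * ip m θ) ∂(cube n) = if m = 0 then 1 else 0 := by
  have h1 : ∀ θ : Fin n → ℝ, ∏ b, Complex.exp (2 * π * Complex.I * (m b) * (θ b)) =
      Complex.exp (((2 * π * ip m θ : ℝ) : ℂ) * Complex.I) := by
    intro θ
    rw [← Complex.exp_sum]
    congr 1
    simp only [ip]
    push_cast
    rw [Finset.mul_sum, Finset.sum_mul]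
    refine Finset.sum_congr rfl fun b _ => ?_
    ring
  have h2 := integral_fintype_prod_eq_prod (𝕜 := ℂ) (E := fun _ : Fin n => ℝ)
    (fun b t => Complex.exp (2 * π * Complex.I * (m b) * (t : ℝ))) (μ := fun _ => unitI)
  simp only [h1, one_dim] at h2
  have h3 : Integrable (fun θ : Fin n → ℝ =>
      Complex.exp (((2 * π * ip m θ : ℝ) : ℂ) * Complex.I)) (cube n) := by
    refine Integrable.of_bound ?_ 1 (Eventually.of_forall fun θ => ?_)
    · refine Continuous.aestronglyMeasurable ?_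
      have := continuous_ip m
      fun_prop
    · rw [Complex.norm_exp_ofReal_mul_I]
  have h4 := integral_re h3
  simp only [RCLike.re_to_complex, Complex.exp_ofReal_mul_I_re] at h4
  rw [h4, cube, h2]
  split_ifs with h
  · subst h
    simp
  · obtain ⟨b, hb⟩ : ∃ b, m b ≠ 0 := by
      by_contra hcon
      push Not at hcon
      exact h (funext hcon)
    rw [Finset.prod_eq_zero (Finset.mem_univ b) (by simp [hb])]
    simp

lemma mean_cos_mul {n : ℕ} (m m' : Fin n → ℤ) :
    ∫ θ, cos (2 * π * ip m θ) * cos (2 * π * ip m' θ) ∂(cube n) =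
      ((if m + m' = 0 then 1 else 0) + (if m - m' = 0 then 1 else 0)) / 2 := by
  have h : ∀ θ, cos (2 * π * ip m θ) * cos (2 * π * ip m' θ) =
      (cos (2 * π * ip (m + m') θ) + cos (2 * π * ip (m - m') θ)) / 2 := by
    intro θ
    rw [ip_add, ip_sub, mul_add, mul_sub, cos_add, cos_sub]
    ring
  simp only [h]
  rw [integral_div, integral_add (integrable_cos _) (integrable_cos _), mean_cos, mean_cos]

lemma integrable_cos_mul {n : ℕ} (m m' : Fin n → ℤ) :
    Integrable (fun θ => cos (2 * π * ip m θ) * cos (2 * π * ip m' θ)) (cube n) := by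
  refine Integrable.of_bound ?_ 1 (Eventually.of_forall fun θ => ?_)
  · refine Continuous.aestronglyMeasurable ?_
    have := continuous_ip m
    have := continuous_ip m'
    fun_prop
  · rw [norm_mul]
    exact mul_le_one₀ (Real.abs_cos_le_one _) (norm_nonneg _) (Real.abs_cos_le_one _)

/-- The number of points of `B` whose translate by `m` lies in `B`. -/
def cnt {n : ℕ} (B : Finset (Fin n → ℤ)) (m : Fin n → ℤ) : ℕ := (B.filter (fun l => l + m ∈ B)).card

lemma pair_sum {n : ℕ} (K : (Fin n → ℤ) → ℝ) (B : Finset (Fin n → ℤ)) (m : Fin n → ℤ) :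
    ∑ k ∈ B, ∑ l ∈ B, K (k - l) * (if k - l - m = 0 then 1 else 0) = K m * cnt B m := by
  rw [Finset.sum_comm, cnt, Finset.card_filter]
  push_cast
  rw [Finset.mul_sum]
  refine Finset.sum_congr rfl fun l _ => ?_
  have h : ∀ k, K (k - l) * (if k - l - m = 0 then (1 : ℝ) else 0) =
      if k = l + m then K m else 0 := by
    intro k
    by_cases hk : k = l + m
    · subst hk
      simp
    · rw [if_neg hk, if_neg, mul_zero]
      intro h
      apply hk
      rw [sub_sub, sub_eq_zero] at h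
      exact h
  simp only [h, Finset.sum_ite_eq']
  split_ifs <;> simp

lemma herglotz_box {n : ℕ} (K : (Fin n → ℤ) → ℝ) (hKe : ∀ m, K (-m) = K m)
    (hK : ∀ (B : Finset (Fin n → ℤ)) (c : (Fin n → ℤ) → ℝ),
      0 ≤ ∑ k ∈ B, ∑ l ∈ B, c k * c l * K (k - l))
    {S : Type*} [Fintype S] (σ : S → ℝ) (m : S → Fin n → ℤ)
    (hΦ : ∀ θ, 0 ≤ ∑ s, σ s * cos (2 * π * ip (m s) θ)) (B : Finset (Fin n → ℤ)) :
    0 ≤ ∑ s, σ s * (K (m s) * cnt B (m s)) := by
  have hT : ∀ θ, 0 ≤ ∑ k ∈ B, ∑ l ∈ B, K (k - l) * cos (2 * π * ip (k - l) θ) := by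
    intro θ
    have h1 := hK B (fun k => cos (2 * π * ip k θ))
    have h2 := hK B (fun k => sin (2 * π * ip k θ))
    have h3 := add_nonneg h1 h2
    rw [← Finset.sum_add_distrib] at h3
    refine h3.trans (le_of_eq (Finset.sum_congr rfl fun k _ => ?_))
    rw [← Finset.sum_add_distrib]
    refine Finset.sum_congr rfl fun l _ => ?_
    rw [ip_sub, mul_sub, cos_sub]
    ring
  have h0 : 0 ≤ ∫ θ, (∑ s, σ s * cos (2 * π * ip (m s) θ)) *
      (∑ k ∈ B, ∑ l ∈ B, K (k - l) * cos (2 * π * ip (k - l) θ)) ∂(cube n) :=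
    integral_nonneg fun θ => mul_nonneg (hΦ θ) (hT θ)
  have h1 : ∀ θ, (∑ s, σ s * cos (2 * π * ip (m s) θ)) *
      (∑ k ∈ B, ∑ l ∈ B, K (k - l) * cos (2 * π * ip (k - l) θ)) =
      ∑ s, ∑ k ∈ B, ∑ l ∈ B, (σ s * K (k - l)) *
        (cos (2 * π * ip (k - l) θ) * cos (2 * π * ip (m s) θ)) := by
    intro θ
    rw [Finset.sum_mul]
    refine Finset.sum_congr rfl fun s _ => ?_
    rw [Finset.mul_sum]
    refine Finset.sum_congr rfl fun k _ => ?_
    rw [Finset.mul_sum]
    refine Finset.sum_congr rfl fun l _ => ?_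
    ring
  simp only [h1] at h0
  rw [integral_finsetSum _ (fun s _ => integrable_finsetSum _ fun k _ =>
    integrable_finsetSum _ fun l _ => (integrable_cos_mul _ _).const_mul _)] at h0
  refine h0.trans (le_of_eq (Finset.sum_congr rfl fun s _ => ?_))
  rw [integral_finsetSum _ (fun k _ =>
    integrable_finsetSum _ fun l _ => (integrable_cos_mul _ _).const_mul _)]
  have h2 : ∀ k ∈ B, ∫ θ, ∑ l ∈ B, (σ s * K (k - l)) *
        (cos (2 * π * ip (k - l) θ) * cos (2 * π * ip (m s) θ)) ∂(cube n) =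
      ∑ l ∈ B, (σ s / 2) * (K (k - l) * (if k - l + m s = 0 then 1 else 0) +
        K (k - l) * (if k - l - m s = 0 then 1 else 0)) := by
    intro k _
    rw [integral_finsetSum _ (fun l _ => (integrable_cos_mul _ _).const_mul _)]
    refine Finset.sum_congr rfl fun l _ => ?_
    rw [integral_const_mul, mean_cos_mul]
    ring
  rw [Finset.sum_congr rfl h2]
  simp only [← Finset.mul_sum, Finset.sum_add_distrib]
  have h3 : ∑ k ∈ B, ∑ l ∈ B, K (k - l) * (if k - l + m s = 0 then 1 else 0) =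
      K (m s) * cnt B (m s) := by
    rw [← pair_sum, Finset.sum_comm]
    refine Finset.sum_congr rfl fun k _ => Finset.sum_congr rfl fun l _ => ?_
    rw [← hKe, neg_sub]
    congr 1
    have : (l - k + m s = 0) ↔ (k - l - m s = 0) := by
      constructor
      · intro h
        have : k - l - m s = -(l - k + m s) := by abel
        rw [this, h, neg_zero]
      · intro h
        have : l - k + m s = -(k - l - m s) := by abel
        rw [this, h, neg_zero]
    simp only [this]
  rw [h3, pair_sum]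
  ring

/-- The box of side `L`. -/
noncomputable def box (n : ℕ) (L : ℕ) : Finset (Fin n → ℤ) := Fintype.piFinset (fun _ => Finset.Ico (0 : ℤ) L)

lemma cnt_box {n : ℕ} (m : Fin n → ℤ) (L : ℕ) (hL : ∀ b, |m b| ≤ L) :
    (cnt (box n L) m : ℝ) = ∏ b, ((L : ℝ) - |(m b : ℝ)|) := by
  have h : (box n L).filter (fun l => l + m ∈ box n L) =
      Fintype.piFinset (fun b => Finset.Ico (max 0 (-m b)) (min (L : ℤ) (L - m b))) := by
    ext l
    simp only [box, Finset.mem_filter, Fintype.mem_piFinset, Finset.mem_Ico, Pi.add_apply,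
      max_le_iff, lt_min_iff]
    constructor
    · rintro ⟨h1, h2⟩ b
      have := h1 b
      have := h2 b
      omega
    · intro h
      constructor <;> intro b <;> have := h b <;> omega
  rw [cnt, h, Fintype.card_piFinset]
  push_cast
  refine Finset.prod_congr rfl fun b _ => ?_
  rw [Int.card_Ico]
  have h1 := hL b
  have h2 : ((min (L : ℤ) (L - m b) - max 0 (-m b)).toNat : ℤ) = L - |m b| := by
    rw [Int.toNat_of_nonneg] <;> rcases abs_cases (m b) with h | h <;> omega
  have h3 : (((min (L : ℤ) (L - m b) - max 0 (-m b)).toNat : ℤ) : ℝ) = ((L - |m b| : ℤ) : ℝ) := by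
    rw [h2]
  push_cast at h3
  exact h3

lemma tendsto_cnt {n : ℕ} (m : Fin n → ℤ) :
    Tendsto (fun L : ℕ => (cnt (box n L) m : ℝ) / (L : ℝ) ^ n) atTop (𝓝 1) := by
  have h1 : Tendsto (fun L : ℕ => ∏ b : Fin n, (1 - |(m b : ℝ)| / (L : ℝ))) atTop
      (𝓝 (∏ _b : Fin n, (1 - 0 : ℝ))) := by
    refine tendsto_finsetProd _ fun b _ => ?_
    exact tendsto_const_nhds.sub (tendsto_const_div_atTop_nhds_zero_nat _)
  simp only [sub_zero, Finset.prod_const_one] at h1
  refine h1.congr' ?_
  have h2 : ∀ᶠ L : ℕ in atTop, ∀ b, |m b| ≤ L := by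
    rw [eventually_all]
    intro b
    filter_upwards [eventually_ge_atTop (m b).natAbs] with L hL
    rw [Int.abs_eq_natAbs]
    exact_mod_cast hL
  filter_upwards [h2, eventually_gt_atTop 0] with L hL hL0
  have hL1 : (L : ℝ) ≠ 0 := by positivity
  rw [cnt_box m L hL]
  have : (L : ℝ) ^ n = ∏ _b : Fin n, (L : ℝ) := by simp
  rw [this, ← Finset.prod_div_distrib]
  refine Finset.prod_congr rfl fun b _ => ?_
  field_simp

theorem herglotz {n : ℕ} (K : (Fin n → ℤ) → ℝ) (hKe : ∀ m, K (-m) = K m)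
    (hK : ∀ (B : Finset (Fin n → ℤ)) (c : (Fin n → ℤ) → ℝ),
      0 ≤ ∑ k ∈ B, ∑ l ∈ B, c k * c l * K (k - l))
    {S : Type*} [Fintype S] (σ : S → ℝ) (m : S → Fin n → ℤ)
    (hΦ : ∀ θ, 0 ≤ ∑ s, σ s * cos (2 * π * ip (m s) θ)) :
    0 ≤ ∑ s, σ s * K (m s) := by
  have h1 : Tendsto (fun L : ℕ => ∑ s, σ s * (K (m s) * ((cnt (box n L) (m s) : ℝ) / (L : ℝ) ^ n)))
      atTop (𝓝 (∑ s, σ s * (K (m s) * 1))) :=
    tendsto_finsetSum _ fun s _ =>
      tendsto_const_nhds.mul (tendsto_const_nhds.mul (tendsto_cnt (m s)))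
  simp only [mul_one] at h1
  refine ge_of_tendsto' h1 fun L => ?_
  have h2 := herglotz_box K hKe hK σ m hΦ (box n L)
  have h3 : ∑ s, σ s * (K (m s) * ((cnt (box n L) (m s) : ℝ) / (L : ℝ) ^ n)) =
      (∑ s, σ s * (K (m s) * cnt (box n L) (m s))) / (L : ℝ) ^ n := by
    rw [Finset.sum_div]
    refine Finset.sum_congr rfl fun s _ => ?_
    ring
  rw [h3]
  positivity

end Pool.Agent.H483Z.Mag
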