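import Pool.Agent.H483Z.MagLevy

set_option autoImplicit false

/-!
Clusters of points in a positive definite normed space: comparison of the similarity kernel of a
clustered family with the kernel of the centres.
-/

namespace Pool.Agent.H483Z.Mag

open Finset Real Filter Topology MeasureTheory

section mass

variable {ι κ : Type} [Fintype ι] [Fintype κ] [DecidableEq κ]

/-- The total mass of a cluster. -/
def mass (cl : ι → κ) (ν : ι → ℝ) (k : κ) : ℝ := ∑ i, if cl i = k then ν i else 0

lemma sum_mass (cl : ι → κ) (ν : ι → ℝ) (f : κ → ℝ) :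
    ∑ i, ν i * f (cl i) = ∑ k, mass cl ν k * f k := by
  simp only [mass, Finset.sum_mul]
  rw [Finset.sum_comm]
  refine Finset.sum_congr rfl fun i _ => ?_
  simp

lemma sum_sum_mass (cl : ι → κ) (ν : ι → ℝ) (F : κ → κ → ℝ) :
    ∑ i, ∑ j, ν i * ν j * F (cl i) (cl j) = ∑ k, ∑ l, mass cl ν k * mass cl ν l * F k l := by
  have h1 : ∀ i, ∑ j, ν i * ν j * F (cl i) (cl j) = ν i * ∑ l, mass cl ν l * F (cl i) l := by
    intro i
    rw [← sum_mass cl ν (fun l => F (cl i) l), Finset.mul_sum]
    refine Finset.sum_congr rfl fun j _ => ?_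
    ring
  simp only [h1]
  rw [sum_mass cl ν (fun k => ∑ l, mass cl ν l * F k l)]
  refine Finset.sum_congr rfl fun k _ => ?_
  rw [Finset.mul_sum]
  refine Finset.sum_congr rfl fun l _ => ?_
  ring

/-- The indicator of a half line. -/
noncomputable def ind (p u : ℝ) : ℝ := if u < p then 1 else 0

lemma chi_eq (p q : ℝ) : (fun u => (ind p u - ind q u) ^ 2) =
    (Set.Ico (min p q) (max p q)).indicator (fun _ => (1 : ℝ)) := by
  funext u
  simp only [ind, Set.indicator, Set.mem_Ico, min_le_iff, lt_max_iff]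
  by_cases h1 : u < p <;> by_cases h2 : u < q <;> simp [h1, h2, not_le.2, not_lt.1]

lemma integrable_chi (p q : ℝ) : Integrable (fun u => (ind p u - ind q u) ^ 2) := by
  rw [chi_eq, integrable_indicator_iff measurableSet_Ico]
  exact integrableOn_const (by simp)

lemma integral_chi (p q : ℝ) : ∫ u, (ind p u - ind q u) ^ 2 = |p - q| := by
  rw [chi_eq, integral_indicator_const _ measurableSet_Ico, Real.volume_real_Ico_of_le min_le_max,
    max_sub_min_eq_abs, abs_sub_comm]
  simp

lemma sum_sq_ind (ν x : ι → ℝ) (hx : ∀ i, x i = 0 ∨ x i = 1) :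
    ∑ i, ∑ j, ν i * ν j * (x i - x j) ^ 2 =
      2 * ((∑ i, ν i * x i) * (∑ i, ν i * (1 - x i))) := by
  have h : ∀ i j, ν i * ν j * (x i - x j) ^ 2 =
      (ν i * x i) * (ν j * (1 - x j)) + (ν i * (1 - x i)) * (ν j * x j) := by
    intro i j
    rcases hx i with h1 | h1 <;> rcases hx j with h2 | h2 <;> rw [h1, h2] <;> ring
  simp only [h, Finset.sum_add_distrib, ← Finset.mul_sum, ← Finset.sum_mul]
  ring

lemma ind_cases (p u : ℝ) : ind p u = 0 ∨ ind p u = 1 := by
  unfold ind
  split_ifs <;> simp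

lemma line_lemma (cl : ι → κ) (ν s : ι → ℝ) (t : κ → ℝ) (η : ℝ) (hη : 0 ≤ η)
    (h : ∀ i, |s i - t (cl i)| ≤ η) :
    0 ≤ ∑ i, ∑ j, ν i * ν j * |t (cl i) - t (cl j)| - ∑ i, ∑ j, ν i * ν j * |s i - s j| +
      η * (6 * (Fintype.card κ : ℝ) ^ 2 * ∑ k, mass cl ν k ^ 2) := by
  set Q : ℝ := ∑ k, |mass cl ν k| with hQ
  have hQ0 : 0 ≤ Q := by positivity
  set box : κ → ℝ → ℝ := fun k => (Set.Icc (t k - η) (t k + η)).indicator (fun _ => (1 : ℝ))
    with hbox
  have hb0 : ∀ k u, 0 ≤ box k u := fun k u => Set.indicator_nonneg (fun _ _ => zero_le_one) u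
  have hbi : ∀ k, Integrable (box k) := by
    intro k
    rw [hbox, integrable_indicator_iff measurableSet_Icc]
    exact integrableOn_const (by simp)
  have hbI : ∀ k, ∫ u, box k u = 2 * η := by
    intro k
    rw [hbox, integral_indicator_const _ measurableSet_Icc,
      Real.volume_real_Icc_of_le (by linarith)]
    simp only [smul_eq_mul, mul_one]
    ring
  have hw : ∀ x : κ → ℝ, (∀ k, |x k| ≤ 1) → |∑ i, ν i * x (cl i)| ≤ Q := by
    intro x hx
    rw [sum_mass]
    refine (Finset.abs_sum_le_sum_abs _ _).trans (Finset.sum_le_sum fun k _ => ?_)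
    rw [abs_mul]
    exact mul_le_of_le_one_right (abs_nonneg _) (hx k)
  have hpt : ∀ u, 0 ≤ ∑ i, ∑ j, ν i * ν j * (ind (t (cl i)) u - ind (t (cl j)) u) ^ 2 -
      ∑ i, ∑ j, ν i * ν j * (ind (s i) u - ind (s j) u) ^ 2 + 3 * Q ^ 2 * ∑ k, box k u := by
    intro u
    by_cases hu : ∃ k, u ∈ Set.Icc (t k - η) (t k + η)
    · obtain ⟨k, hk⟩ := hu
      have h1 : 1 ≤ ∑ k, box k u := by
        have h2 : box k u = 1 := Set.indicator_of_mem hk _
        rw [← h2]
        exact Finset.single_le_sum (f := fun k => box k u) (fun k _ => hb0 k u) (Finset.mem_univ k)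
      rw [sum_sq_ind ν (fun i => ind (t (cl i)) u) (fun i => ind_cases _ _),
        sum_sq_ind ν (fun i => ind (s i) u) (fun i => ind_cases _ _)]
      have h2 := hw (fun k => ind (t k) u) (fun k => by rcases ind_cases (t k) u with h | h <;> simp [h])
      have h3 := hw (fun k => 1 - ind (t k) u)
        (fun k => by rcases ind_cases (t k) u with h | h <;> simp [h])
      have h4 := hw (fun _ => 1) (fun _ => by simp)
      have h5 : ∑ i, ν i * ind (s i) u + ∑ i, ν i * (1 - ind (s i) u) = ∑ i, ν i * 1 := by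
        rw [← Finset.sum_add_distrib]
        refine Finset.sum_congr rfl fun i _ => ?_
        ring
      generalize ∑ i, ν i * ind (s i) u = A at *
      generalize ∑ i, ν i * (1 - ind (s i) u) = A' at *
      generalize ∑ i, ν i * ind (t (cl i)) u = B at *
      generalize ∑ i, ν i * (1 - ind (t (cl i)) u) = B' at *
      generalize ∑ i, ν i * 1 = T at *
      have h6 : |B * B'| ≤ Q * Q := by
        rw [abs_mul]
        exact mul_le_mul h2 h3 (abs_nonneg _) hQ0
      have h7 := neg_abs_le (B * B')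
      have h8 : T ^ 2 ≤ Q ^ 2 := sq_le_sq' (abs_le.1 h4).1 (abs_le.1 h4).2
      have h9 : 3 * Q ^ 2 * 1 ≤ 3 * Q ^ 2 * ∑ k, box k u :=
        mul_le_mul_of_nonneg_left h1 (by positivity)
      subst h5
      nlinarith [sq_nonneg (A - A')]
    · push Not at hu
      have h1 : ∀ i, ind (s i) u = ind (t (cl i)) u := by
        intro i
        have h2 := hu (cl i)
        have h3 := abs_le.1 (h i)
        simp only [Set.mem_Icc, not_and_or, not_le] at h2
        unfold ind
        rcases h2 with h2 | h2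
        · rw [if_pos (by linarith), if_pos (by linarith)]
        · rw [if_neg (by linarith), if_neg (by linarith)]
      simp only [h1, sub_self, zero_add]
      exact mul_nonneg (by positivity) (Finset.sum_nonneg fun k _ => hb0 k u)
  have hI : ∀ p : ι → ℝ, Integrable (fun u => ∑ i, ∑ j, ν i * ν j * (ind (p i) u - ind (p j) u) ^ 2) :=
    fun p => integrable_finsetSum _ fun i _ => integrable_finsetSum _ fun j _ =>
      (integrable_chi _ _).const_mul _
  have hII : ∀ p : ι → ℝ, ∫ u, ∑ i, ∑ j, ν i * ν j * (ind (p i) u - ind (p j) u) ^ 2 =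
      ∑ i, ∑ j, ν i * ν j * |p i - p j| := by
    intro p
    rw [integral_finsetSum _ fun i _ => integrable_finsetSum _ fun j _ =>
      (integrable_chi _ _).const_mul _]
    refine Finset.sum_congr rfl fun i _ => ?_
    rw [integral_finsetSum _ fun j _ => (integrable_chi _ _).const_mul _]
    refine Finset.sum_congr rfl fun j _ => ?_
    rw [integral_const_mul, integral_chi]
  have h0 : 0 ≤ ∫ u, (∑ i, ∑ j, ν i * ν j * (ind (t (cl i)) u - ind (t (cl j)) u) ^ 2 -
      ∑ i, ∑ j, ν i * ν j * (ind (s i) u - ind (s j) u) ^ 2 + 3 * Q ^ 2 * ∑ k, box k u) :=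
    integral_nonneg hpt
  have hsub : Integrable (fun u =>
      ∑ i, ∑ j, ν i * ν j * (ind (t (cl i)) u - ind (t (cl j)) u) ^ 2 -
      ∑ i, ∑ j, ν i * ν j * (ind (s i) u - ind (s j) u) ^ 2) :=
    (hI (fun i => t (cl i))).sub (hI s)
  rw [integral_add hsub
      ((integrable_finsetSum _ fun k _ => hbi k).const_mul _),
    integral_sub (hI (fun i => t (cl i))) (hI s), hII (fun i => t (cl i)), hII s,
    integral_const_mul, integral_finsetSum _ fun k _ => hbi k] at h0
  simp only [hbI, Finset.sum_const, Finset.card_univ, nsmul_eq_mul] at h0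
  have h1 : Q ^ 2 ≤ (Fintype.card κ : ℝ) * ∑ k, mass cl ν k ^ 2 := by
    have := sq_sum_le_card_mul_sum_sq (s := (Finset.univ : Finset κ)) (f := fun k => |mass cl ν k|)
    simpa [sq_abs] using this
  have h2 : 3 * Q ^ 2 * ((Fintype.card κ : ℝ) * (2 * η)) ≤
      η * (6 * (Fintype.card κ : ℝ) ^ 2 * ∑ k, mass cl ν k ^ 2) := by
    have h3 : 0 ≤ 6 * η * (Fintype.card κ : ℝ) := by positivity
    nlinarith [mul_le_mul_of_nonneg_left h1 h3]
  linarith

end mass

section levy

variable {U : Type} [NormedAddCommGroup U] [NormedSpace ℝ U]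

/-- The exponential kernel is positive semidefinite on every finite family. -/
def KerPos (U : Type) [NormedAddCommGroup U] : Prop :=
  ∀ (ι : Type) [Fintype ι] (y : ι → U) (c : ι → ℝ), 0 ≤ ∑ i, ∑ j, c i * c j * exp (-‖y i - y j‖)

/-- The linear form with coefficients `θ` in the basis `e`. -/
noncomputable def lin {n : ℕ} (e : Module.Basis (Fin n) ℝ U) (θ : Fin n → ℝ) (v : U) : ℝ :=
  ∑ b, e.repr v b * θ b

lemma lin_sub {n : ℕ} (e : Module.Basis (Fin n) ℝ U) (θ : Fin n → ℝ) (v w : U) :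
    lin e θ (v - w) = lin e θ v - lin e θ w := by
  simp [lin, sub_mul, Finset.sum_sub_distrib]

lemma lin_basis {n : ℕ} (e : Module.Basis (Fin n) ℝ U) (θ : Fin n → ℝ) (b : Fin n) :
    lin e θ (e b) = θ b := by
  simp [lin, Finsupp.single_apply]

theorem levy (hU : KerPos U) {n : ℕ} (e : Module.Basis (Fin n) ℝ U) {S : Type} [Fintype S]
    (a : S → ℝ) (v : S → U) (h : ∀ θ, 0 ≤ ∑ s, a s * |lin e θ (v s)|) :
    0 ≤ ∑ s, a s * ‖v s‖ := by
  set pt : (Fin n → ℤ) → U := fun m => ∑ b, (m b : ℝ) • e b with hpt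
  have hsub : ∀ k l, pt (k - l) = pt k - pt l := by
    intro k l
    simp [hpt, sub_smul, Finset.sum_sub_distrib]
  have hneg : ∀ m, ‖pt (-m)‖ = ‖pt m‖ := by
    intro m
    have : pt (-m) = -pt m := by simp [hpt]
    rw [this, norm_neg]
  have hsm : ∀ (u : ℕ) (m : Fin n → ℤ), ‖pt ((u : ℤ) • m)‖ = u * ‖pt m‖ := by
    intro u m
    have : pt ((u : ℤ) • m) = (u : ℝ) • pt m := by
      simp [hpt, Finset.smul_sum, mul_smul]
    rw [this, norm_smul]
    simp
  have hK : ∀ (h : ℝ), 0 < h → ∀ (B : Finset (Fin n → ℤ)) (c : (Fin n → ℤ) → ℝ),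
      0 ≤ ∑ k ∈ B, ∑ l ∈ B, c k * c l * exp (-(h * ‖pt (k - l)‖)) := by
    intro r hr B c
    have h1 := hU B (fun k => r • pt k) (fun k => c k)
    refine h1.trans (le_of_eq ?_)
    rw [← Finset.sum_coe_sort B]
    refine Finset.sum_congr rfl fun k _ => ?_
    rw [← Finset.sum_coe_sort B]
    refine Finset.sum_congr rfl fun l _ => ?_
    rw [hsub, ← smul_sub, norm_smul, Real.norm_of_nonneg hr.le]
  set A : ℝ := ∑ s, |a s| with hA
  set E : ℝ := ∑ b, ‖e b‖ with hE
  have key : ∀ q : ℕ, 0 ≤ (q : ℝ) * (∑ s, a s * ‖v s‖) + 2 * (A * E) := by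
    intro q
    set m : S → Fin n → ℤ := fun s b => round ((q : ℝ) * e.repr (v s) b) with hm
    have hr : ∀ s b, |(m s b : ℝ) - q * e.repr (v s) b| ≤ 1 := by
      intro s b
      rw [abs_sub_comm]
      exact (abs_sub_round _).trans (by norm_num)
    have h1 := levy_int (fun m => ‖pt m‖) (fun _ => norm_nonneg _) hneg hsm hK
      (S := S ⊕ Fin n) (Sum.elim a (fun _ => A)) (Sum.elim m (fun b => Pi.single b 1)) (by
        intro θ
        simp only [Fintype.sum_sum_type, Sum.elim_inl, Sum.elim_inr, ip_single]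
        have h2 : ∀ s, q * (a s * |lin e θ (v s)|) - |a s| * ∑ b, |θ b| ≤ a s * |ip (m s) θ| := by
          intro s
          have h3 : |ip (m s) θ - q * lin e θ (v s)| ≤ ∑ b, |θ b| := by
            simp only [ip, lin, Finset.mul_sum, ← Finset.sum_sub_distrib]
            refine (Finset.abs_sum_le_sum_abs _ _).trans (Finset.sum_le_sum fun b _ => ?_)
            have : (m s b : ℝ) * θ b - q * (e.repr (v s) b * θ b) =
                ((m s b : ℝ) - q * e.repr (v s) b) * θ b := by ring
            rw [this, abs_mul]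
            exact mul_le_of_le_one_left (abs_nonneg _) (hr s b)
          have h4 := (abs_abs_sub_abs_le (ip (m s) θ) (q * lin e θ (v s))).trans h3
          rw [abs_mul, Nat.abs_cast] at h4
          have h5 : |a s * (|ip (m s) θ| - q * (|lin e θ (v s)|))| ≤ |a s| * ∑ b, |θ b| := by
            rw [abs_mul]
            exact mul_le_mul_of_nonneg_left h4 (abs_nonneg _)
          have h6 := neg_abs_le (a s * (|ip (m s) θ| - q * (|lin e θ (v s)|)))
          nlinarith
        have h3 := Finset.sum_le_sum fun s (_ : s ∈ Finset.univ) => h2 s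
        rw [Finset.sum_sub_distrib, ← Finset.mul_sum, ← Finset.sum_mul] at h3
        rw [← Finset.mul_sum]
        have h4 : 0 ≤ (q : ℝ) * ∑ s, a s * |lin e θ (v s)| := mul_nonneg (by positivity) (h θ)
        linarith)
    simp only [Fintype.sum_sum_type, Sum.elim_inl, Sum.elim_inr] at h1
    have h2 : ∀ b, pt (Pi.single b 1) = e b := by
      intro b
      simp only [hpt]
      rw [Finset.sum_eq_single b]
      · simp
      · intro c _ hc
        simp [Pi.single_eq_of_ne hc]
      · simp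
    simp only [h2, ← Finset.mul_sum] at h1
    have h3 : ∀ s, a s * ‖pt (m s)‖ ≤ q * (a s * ‖v s‖) + |a s| * E := by
      intro s
      have h4 : ‖pt (m s) - (q : ℝ) • v s‖ ≤ E := by
        have h5 : pt (m s) - (q : ℝ) • v s =
            ∑ b, ((m s b : ℝ) - q * e.repr (v s) b) • e b := by
          conv_lhs => rw [← e.sum_repr (v s)]
          simp only [hpt, Finset.smul_sum, ← Finset.sum_sub_distrib, sub_smul, mul_smul]
        rw [h5]
        refine (norm_sum_le _ _).trans (Finset.sum_le_sum fun b _ => ?_)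
        rw [norm_smul]
        exact mul_le_of_le_one_left (norm_nonneg _) (hr s b)
      have h5 := (abs_norm_sub_norm_le (pt (m s)) ((q : ℝ) • v s)).trans h4
      rw [norm_smul, Real.norm_natCast] at h5
      have h6 : |a s * (‖pt (m s)‖ - q * ‖v s‖)| ≤ |a s| * E := by
        rw [abs_mul]
        exact mul_le_mul_of_nonneg_left h5 (abs_nonneg _)
      have h7 := le_abs_self (a s * (‖pt (m s)‖ - q * ‖v s‖))
      nlinarith
    have h4 := Finset.sum_le_sum fun s (_ : s ∈ Finset.univ) => h3 s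
    rw [Finset.sum_add_distrib, ← Finset.mul_sum, ← Finset.sum_mul] at h4
    linarith
  by_contra hcon
  push Not at hcon
  have h2 := ((tendsto_natCast_atTop_atTop (R := ℝ)).atTop_mul_const_of_neg hcon).eventually
    (eventually_lt_atBot (-(2 * (A * E))))
  obtain ⟨q, hq⟩ := h2.exists
  have := key q
  linarith

theorem cluster_psd [FiniteDimensional ℝ U] (hU : KerPos U) (κ : Type) [Fintype κ] [DecidableEq κ] :
    ∃ C : ℝ, 0 ≤ C ∧ ∀ (ι : Type) [Fintype ι] (cl : ι → κ) (x : κ → U) (y : ι → U) (ε : ℝ),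
      0 ≤ ε → (∀ i, ‖y i - x (cl i)‖ ≤ ε) → ∀ ν : ι → ℝ,
      0 ≤ ∑ i, ∑ j, ν i * ν j * ‖x (cl i) - x (cl j)‖ - ∑ i, ∑ j, ν i * ν j * ‖y i - y j‖ +
        ε * C * ∑ k, mass cl ν k ^ 2 := by
  set e := Module.finBasis ℝ U with he
  obtain ⟨c, hc0, hc⟩ : ∃ c : ℝ, 0 ≤ c ∧ ∀ v b, |e.repr v b| ≤ c * ‖v‖ := by
    refine ⟨‖e.equivFunL.toContinuousLinearMap‖, norm_nonneg _, fun v b => ?_⟩
    have h1 := e.equivFunL.toContinuousLinearMap.le_opNorm v
    refine le_trans ?_ h1
    exact norm_le_pi_norm (e.equivFunL v) b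
  refine ⟨c * (6 * (Fintype.card κ : ℝ) ^ 2) * ∑ b, ‖e b‖, by positivity, ?_⟩
  intro ι _ cl x y ε hε hy ν
  have h1 := levy hU e (S := (ι × ι) ⊕ ((ι × ι) ⊕ Fin (Module.finrank ℝ U)))
    (Sum.elim (fun p => ν p.1 * ν p.2) (Sum.elim (fun p => -(ν p.1 * ν p.2))
      (fun _ => ε * c * (6 * (Fintype.card κ : ℝ) ^ 2 * ∑ k, mass cl ν k ^ 2))))
    (Sum.elim (fun p => x (cl p.1) - x (cl p.2)) (Sum.elim (fun p => y p.1 - y p.2) (fun b => e b)))
    (by
      intro θ
      have h2 := line_lemma cl ν (fun i => lin e θ (y i)) (fun k => lin e θ (x k))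
        (ε * c * ∑ b, |θ b|) (by positivity) (by
          intro i
          rw [← lin_sub, lin, Finset.mul_sum]
          refine (Finset.abs_sum_le_sum_abs _ _).trans (Finset.sum_le_sum fun b _ => ?_)
          rw [abs_mul]
          refine mul_le_mul_of_nonneg_right ((hc _ b).trans ?_) (abs_nonneg _)
          rw [mul_comm ε c]
          exact mul_le_mul_of_nonneg_left (hy i) hc0)
      simp only [Fintype.sum_sum_type, Fintype.sum_prod_type, Sum.elim_inl, Sum.elim_inr,
        lin_sub, lin_basis, neg_mul, Finset.sum_neg_distrib, ← Finset.mul_sum]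
      linarith)
  simp only [Fintype.sum_sum_type, Fintype.sum_prod_type, Sum.elim_inl, Sum.elim_inr,
    neg_mul, Finset.sum_neg_distrib, ← Finset.mul_sum] at h1
  linarith

end levy

end Pool.Agent.H483Z.Mag
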