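import Pool.Agent.H483Z.MagHerglotz

set_option autoImplicit false

/-!
The dual form of Levy's representation: in a normed space whose exponential kernel is positive
semidefinite, every linear inequality between absolute values of linear forms holds for the norm.
-/

namespace Pool.Agent.H483Z.Mag

open Finset Real Filter Topology

/-- Partial sums of a cosine series whose sum is a multiple of the absolute value near zero. -/
noncomputable def GN (N : ℕ) (w : ℝ) : ℝ :=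
  ∑ u ∈ Finset.Ioc 0 N, (1 - cos (2 * π * (u * w))) / (u : ℝ) ^ 2

lemma GN_nonneg (N : ℕ) (w : ℝ) : 0 ≤ GN N w :=
  Finset.sum_nonneg fun _ _ => div_nonneg (sub_nonneg.2 (cos_le_one _)) (sq_nonneg _)

lemma GN_neg (N : ℕ) (w : ℝ) : GN N (-w) = GN N w := by
  simp [GN]

lemma GN_abs (N : ℕ) (w : ℝ) : GN N |w| = GN N w := by
  rcases abs_choice w with h | h <;> rw [h]
  exact GN_neg N w

lemma GN_add_int (N : ℕ) (w : ℝ) (k : ℤ) : GN N (w + k) = GN N w := by
  unfold GN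
  refine Finset.sum_congr rfl fun u _ => ?_
  have : 2 * π * (u * (w + k)) = 2 * π * (u * w) + ((u * k : ℤ) : ℝ) * (2 * π) := by
    push_cast
    ring
  rw [this, cos_add_int_mul_two_pi]

lemma GN_diff (N M : ℕ) (hN : N ≠ 0) (h : N ≤ M) (w : ℝ) :
    GN N w ≤ GN M w ∧ GN M w ≤ GN N w + 2 / N := by
  have h1 : GN M w = GN N w +
      ∑ u ∈ Finset.Ioc N M, (1 - cos (2 * π * (u * w))) / (u : ℝ) ^ 2 := by
    rw [GN, GN, Finset.sum_Ioc_consecutive _ (Nat.zero_le N) h]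
  have h2 : 0 ≤ ∑ u ∈ Finset.Ioc N M, (1 - cos (2 * π * (u * w))) / (u : ℝ) ^ 2 :=
    Finset.sum_nonneg fun _ _ => div_nonneg (sub_nonneg.2 (cos_le_one _)) (sq_nonneg _)
  have h3 : ∑ u ∈ Finset.Ioc N M, (1 - cos (2 * π * (u * w))) / (u : ℝ) ^ 2 ≤
      ∑ u ∈ Finset.Ioc N M, 2 * ((u : ℝ) ^ 2)⁻¹ := by
    refine Finset.sum_le_sum fun u _ => ?_
    rw [div_eq_mul_inv]
    refine mul_le_mul_of_nonneg_right ?_ (by positivity)
    linarith [neg_one_le_cos (2 * π * (u * w))]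
  rw [← Finset.mul_sum] at h3
  have h4 := sum_Ioc_inv_sq_le_sub (α := ℝ) hN h
  have h5 : (0 : ℝ) ≤ (M : ℝ)⁻¹ := by positivity
  constructor
  · linarith
  · rw [div_eq_mul_inv]
    linarith

lemma GN_tendsto (w : ℝ) (hw : w ∈ Set.Icc (0 : ℝ) 1) :
    Tendsto (fun N => GN N w) atTop (𝓝 (π ^ 2 * (w - w ^ 2))) := by
  have h1 := hasSum_one_div_nat_pow_mul_cos (k := 1) one_ne_zero hw
  have h2 := hasSum_zeta_two
  have h3 := (h2.sub h1).tendsto_sum_nat
  have h4 : π ^ 2 / 6 - (-1 : ℝ) ^ (1 + 1) * (2 * π) ^ (2 * 1) / 2 / ((2 * 1).factorial : ℕ) *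
      (Polynomial.map (algebraMap ℚ ℝ) (Polynomial.bernoulli (2 * 1))).eval w =
      π ^ 2 * (w - w ^ 2) := by
    have h5 : (Polynomial.map (algebraMap ℚ ℝ) (Polynomial.bernoulli 2)).eval w =
        w ^ 2 - w + 1 / 6 := by
      have := bernoulliFun_two w
      unfold bernoulliFun at this
      rw [this]
      norm_num
    simp only [mul_one, h5]
    norm_num [Nat.factorial]
    ring
  rw [h4] at h3
  have h6 := h3.comp (tendsto_add_atTop_nat 1)
  refine h6.congr fun N => ?_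
  simp only [Function.comp, GN]
  rw [Finset.range_eq_Ico, Finset.sum_eq_sum_Ico_succ_bot (Nat.succ_pos N)]
  simp only [Nat.cast_zero, mul_one]
  have h7 : Finset.Ico (0 + 1) (N + 1) = Finset.Ioc 0 N := by
    ext u
    simp only [Finset.mem_Ico, Finset.mem_Ioc]
    omega
  rw [h7]
  simp only [ne_eq, OfNat.ofNat_ne_zero, not_false_eq_true, zero_pow, div_zero, zero_mul,
    sub_self, zero_add]
  refine Finset.sum_congr rfl fun u _ => ?_
  rw [mul_assoc (2 * π)]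
  ring

lemma GN_approx (N : ℕ) (hN : N ≠ 0) (w : ℝ) :
    |GN N w - π ^ 2 * (|w|)| ≤ π ^ 2 * w ^ 2 + 2 / N := by
  have hN2 : (0 : ℝ) ≤ 2 / N := by positivity
  have hpi : (9 : ℝ) ≤ π ^ 2 := by nlinarith [Real.pi_gt_three]
  rw [← GN_abs, ← sq_abs w]
  have h0 := abs_nonneg w
  generalize |w| = x at h0 ⊢
  rcases le_total x 1 with h | h
  · have h1 := GN_tendsto x ⟨h0, h⟩
    have h2 : GN N x ≤ π ^ 2 * (x - x ^ 2) :=
      ge_of_tendsto h1 (by
        filter_upwards [eventually_ge_atTop N] with M hM using (GN_diff N M hN hM x).1)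
    have h3 : π ^ 2 * (x - x ^ 2) ≤ GN N x + 2 / N :=
      le_of_tendsto h1 (by
        filter_upwards [eventually_ge_atTop N] with M hM using (GN_diff N M hN hM x).2)
    rw [abs_le]
    have : 0 ≤ π ^ 2 * x ^ 2 := by positivity
    constructor <;> nlinarith
  · have h1 := (GN_diff 1 N one_ne_zero (Nat.one_le_iff_ne_zero.2 hN) x).2
    have h2 : GN 1 x ≤ 2 := by
      simp only [GN]
      have : Finset.Ioc 0 1 = {1} := by decide
      rw [this, Finset.sum_singleton]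
      have := neg_one_le_cos (2 * π * (((1 : ℕ) : ℝ) * x))
      simp only [Nat.cast_one, one_pow, div_one] at this ⊢
      linarith
    have h3 := GN_nonneg N x
    have h4 : x ≤ x ^ 2 := by nlinarith
    have h5 : π ^ 2 * x ≤ π ^ 2 * x ^ 2 := mul_le_mul_of_nonneg_left h4 (by positivity)
    have h6 : 9 ≤ π ^ 2 * x := by nlinarith
    simp only [Nat.cast_one, div_one] at h1
    rw [abs_le]
    constructor <;> linarith

lemma ip_smul {n : ℕ} (u : ℕ) (m : Fin n → ℤ) (θ : Fin n → ℝ) :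
    ip ((u : ℤ) • m) θ = u * ip m θ := by
  simp [ip, Finset.mul_sum, mul_assoc]

lemma ip_single {n : ℕ} (b : Fin n) (θ : Fin n → ℝ) : ip (Pi.single b 1) θ = θ b := by
  simp only [ip]
  rw [Finset.sum_eq_single b]
  · simp
  · intro c _ hc
    simp [Pi.single_eq_of_ne hc]
  · simp

lemma trig_nonneg {n : ℕ} {S : Type*} [Fintype S] (a : S → ℝ) (m : S → Fin n → ℤ)
    (h : ∀ θ, 0 ≤ ∑ s, a s * |ip (m s) θ|) :
    ∃ C : ℝ, 0 ≤ C ∧ ∀ N : ℕ, N ≠ 0 → ∀ θ : Fin n → ℝ,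
      0 ≤ ∑ s, a s * GN N (ip (m s) θ) + C * ∑ b, (1 - cos (2 * π * θ b)) +
        (∑ s, |a s|) * (2 / N) := by
  refine ⟨π ^ 2 * (∑ s, |a s| * ∑ b, (m s b : ℝ) ^ 2), by positivity, fun N hN θ => ?_⟩
  set φ : Fin n → ℝ := fun b => θ b - round (θ b) with hφ
  have h1 : ∀ s, GN N (ip (m s) θ) = GN N (ip (m s) φ) := by
    intro s
    rw [← GN_add_int N (ip (m s) φ) (∑ b, m s b * round (θ b))]
    congr 1
    simp only [ip, hφ]
    push_cast
    rw [← Finset.sum_add_distrib]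
    refine Finset.sum_congr rfl fun b _ => ?_
    ring
  have h2 : ∀ b, φ b ^ 2 ≤ 1 - cos (2 * π * θ b) := by
    intro b
    have e : 2 * π * θ b = 2 * π * φ b + (round (θ b) : ℤ) * (2 * π) := by
      simp only [hφ]
      ring
    rw [e, cos_add_int_mul_two_pi]
    have h3 : |φ b| ≤ 1 / 2 := abs_sub_round (θ b)
    have h4 : |2 * π * φ b| ≤ π := by
      rw [abs_mul, abs_of_pos (by positivity : 0 < 2 * π)]
      nlinarith [Real.pi_pos]
    have h5 := cos_le_one_sub_mul_cos_sq h4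
    have h6 : 2 / π ^ 2 * (2 * π * φ b) ^ 2 = 8 * φ b ^ 2 := by
      field_simp
      ring
    rw [h6] at h5
    nlinarith [sq_nonneg (φ b)]
  have h3 : ∑ b, φ b ^ 2 ≤ ∑ b, (1 - cos (2 * π * θ b)) := Finset.sum_le_sum fun b _ => h2 b
  have h4 : ∀ s, π ^ 2 * (a s * |ip (m s) φ|) -
      (π ^ 2 * (|a s| * ∑ b, (m s b : ℝ) ^ 2) * ∑ b, (1 - cos (2 * π * θ b)) + |a s| * (2 / N)) ≤
      a s * GN N (ip (m s) θ) := by
    intro s
    rw [h1]
    have h5 := GN_approx N hN (ip (m s) φ)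
    have h6 : ip (m s) φ ^ 2 ≤ (∑ b, (m s b : ℝ) ^ 2) * ∑ b, φ b ^ 2 :=
      Finset.sum_mul_sq_le_sq_mul_sq _ _ _
    have h7 : ip (m s) φ ^ 2 ≤ (∑ b, (m s b : ℝ) ^ 2) * ∑ b, (1 - cos (2 * π * θ b)) :=
      h6.trans (mul_le_mul_of_nonneg_left h3 (by positivity))
    have h8 : |a s * (GN N (ip (m s) φ) - π ^ 2 * (|ip (m s) φ|))| ≤
        |a s| * (π ^ 2 * ((∑ b, (m s b : ℝ) ^ 2) * ∑ b, (1 - cos (2 * π * θ b))) + 2 / N) := by
      rw [abs_mul]
      refine mul_le_mul_of_nonneg_left (h5.trans ?_) (abs_nonneg _)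
      gcongr
    have h9 := neg_abs_le (a s * (GN N (ip (m s) φ) - π ^ 2 * |ip (m s) φ|))
    nlinarith
  have h5 := Finset.sum_le_sum fun s (_ : s ∈ Finset.univ) => h4 s
  rw [Finset.sum_sub_distrib, Finset.sum_add_distrib, ← Finset.mul_sum, ← Finset.sum_mul,
    ← Finset.sum_mul, ← Finset.mul_sum] at h5
  have h6 : 0 ≤ π ^ 2 * ∑ s, a s * |ip (m s) φ| := mul_nonneg (by positivity) (h φ)
  linarith

lemma exp_approx (y : ℝ) (hy : 0 ≤ y) : |1 - exp (-y) - y| ≤ y ^ 2 := by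
  have h1 : 1 - y ≤ exp (-y) := by linarith [Real.add_one_le_exp (-y)]
  have h2 : exp (-y) ≤ 1 - y + y ^ 2 := by
    have h3 : y + 1 ≤ exp y := Real.add_one_le_exp y
    have h4 : exp (-y) * exp y = 1 := by rw [← Real.exp_add]; simp
    have h5 : 0 < exp (-y) := Real.exp_pos _
    have h6 : exp (-y) * (y + 1) ≤ 1 := by nlinarith
    have h7 : 1 ≤ (1 - y + y ^ 2) * (y + 1) := by nlinarith [mul_nonneg hy (mul_nonneg hy hy)]
    by_contra hcon
    push Not at hcon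
    nlinarith
  rw [abs_le]
  constructor <;> nlinarith

/-- The dual Levy inequality for integer vectors. -/
lemma levy_int {n : ℕ} (ρ : (Fin n → ℤ) → ℝ) (hρ0 : ∀ m, 0 ≤ ρ m) (hρe : ∀ m, ρ (-m) = ρ m)
    (hρs : ∀ (u : ℕ) (m : Fin n → ℤ), ρ ((u : ℤ) • m) = u * ρ m)
    (hK : ∀ (h : ℝ), 0 < h → ∀ (B : Finset (Fin n → ℤ)) (c : (Fin n → ℤ) → ℝ),
      0 ≤ ∑ k ∈ B, ∑ l ∈ B, c k * c l * exp (-(h * ρ (k - l))))
    {S : Type} [Fintype S] (a : S → ℝ) (m : S → Fin n → ℤ)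
    (h : ∀ θ, 0 ≤ ∑ s, a s * |ip (m s) θ|) : 0 ≤ ∑ s, a s * ρ (m s) := by
  obtain ⟨C, hC, hCN⟩ := trig_nonneg a m h
  have hρz : ρ 0 = 0 := by simpa using hρs 0 0
  set D : ℝ := ∑ s, |a s| * ρ (m s) ^ 2 + C * ∑ b, ρ (Pi.single b 1) + (∑ s, |a s|) * 2 with hD
  have key : ∀ N : ℕ, N ≠ 0 →
      0 ≤ (∑ u ∈ Finset.Ioc 0 N, 1 / (u : ℝ)) * (∑ s, a s * ρ (m s)) + D := by
    intro N hN
    have hN0 : (0 : ℝ) < N := by positivity
    have h1 := herglotz (fun k => exp (-((1 / N : ℝ) * ρ k))) (fun k => by rw [hρe])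
      (hK _ (by positivity)) (S := (S × Finset.Ioc 0 N) ⊕ (Fin n ⊕ Unit))
      (Sum.elim (fun p => -(a p.1 / ((p.2 : ℕ) : ℝ) ^ 2)) (Sum.elim (fun _ => -C)
        (fun _ => ∑ s, ∑ u ∈ Finset.Ioc 0 N, a s / (u : ℝ) ^ 2 + C * n + (∑ s, |a s|) * (2 / N))))
      (Sum.elim (fun p => ((p.2 : ℕ) : ℤ) • m p.1) (Sum.elim (fun b => Pi.single b 1) (fun _ => 0)))
      (by
        intro θ
        refine (hCN N hN θ).trans (le_of_eq ?_)
        simp only [Fintype.sum_sum_type, Fintype.sum_prod_type, Sum.elim_inl, Sum.elim_inr,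
          ip_smul, ip_single, Finset.univ_unique, Finset.sum_singleton]
        have e1 : ∀ s, ∑ u : Finset.Ioc 0 N, -(a s / ((u : ℕ) : ℝ) ^ 2) *
            cos (2 * π * ((u : ℕ) * ip (m s) θ)) =
            a s * GN N (ip (m s) θ) - ∑ u ∈ Finset.Ioc 0 N, a s / (u : ℝ) ^ 2 := by
          intro s
          rw [Finset.sum_coe_sort (Finset.Ioc 0 N) (fun u : ℕ => -(a s / (u : ℝ) ^ 2) *
            cos (2 * π * ((u : ℝ) * ip (m s) θ))), GN, Finset.mul_sum, ← Finset.sum_sub_distrib]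
          refine Finset.sum_congr rfl fun u _ => ?_
          ring
        simp only [e1, Finset.sum_sub_distrib, ← Finset.mul_sum]
        simp [ip]
        ring)
    simp only [Fintype.sum_sum_type, Fintype.sum_prod_type, Sum.elim_inl, Sum.elim_inr,
      hρs, hρz, Finset.univ_unique, Finset.sum_singleton, mul_zero, neg_zero, exp_zero,
      mul_one] at h1
    have e1 : ∀ s, ∑ u : Finset.Ioc 0 N, -(a s / ((u : ℕ) : ℝ) ^ 2) *
        exp (-(1 / N * ((u : ℕ) * ρ (m s)))) + ∑ u ∈ Finset.Ioc 0 N, a s / (u : ℝ) ^ 2 ≤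
        (1 / N) * ((∑ u ∈ Finset.Ioc 0 N, 1 / (u : ℝ)) * (a s * ρ (m s)) +
          |a s| * ρ (m s) ^ 2) := by
      intro s
      rw [Finset.sum_coe_sort (Finset.Ioc 0 N) (fun u : ℕ => -(a s / (u : ℝ) ^ 2) *
        exp (-(1 / N * ((u : ℝ) * ρ (m s))))), ← Finset.sum_add_distrib]
      have e2 : (1 / N : ℝ) * ((∑ u ∈ Finset.Ioc 0 N, 1 / (u : ℝ)) * (a s * ρ (m s)) +
          |a s| * ρ (m s) ^ 2) = ∑ u ∈ Finset.Ioc 0 N,
            ((1 / N : ℝ) * (1 / (u : ℝ) * (a s * ρ (m s))) + |a s| * (ρ (m s) / N) ^ 2) := by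
        rw [Finset.sum_add_distrib, ← Finset.mul_sum, ← Finset.sum_mul, Finset.sum_const,
          Nat.card_Ioc, nsmul_eq_mul]
        simp only [Nat.sub_zero]
        field_simp
      rw [e2]
      refine Finset.sum_le_sum fun u hu => ?_
      have hu0 : (0 : ℝ) < u := by
        have := (Finset.mem_Ioc.1 hu).1
        positivity
      have hy : 0 ≤ 1 / (N : ℝ) * (u * ρ (m s)) := by
        have := hρ0 (m s)
        positivity
      have h2 := exp_approx _ hy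
      set y := 1 / (N : ℝ) * (u * ρ (m s)) with hydef
      have h3 : a s * (1 - exp (-y) - y) ≤ |a s| * y ^ 2 := by
        refine (le_abs_self _).trans ?_
        rw [abs_mul]
        exact mul_le_mul_of_nonneg_left h2 (abs_nonneg _)
      have h4 : a s * (1 - exp (-y) - y) / (u : ℝ) ^ 2 ≤ |a s| * y ^ 2 / (u : ℝ) ^ 2 :=
        div_le_div_of_nonneg_right h3 (by positivity)
      have h5 : |a s| * y ^ 2 / (u : ℝ) ^ 2 = |a s| * (ρ (m s) / N) ^ 2 := by
        rw [hydef]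
        field_simp
      have h6 : a s * y / (u : ℝ) ^ 2 = (1 / N : ℝ) * (1 / (u : ℝ) * (a s * ρ (m s))) := by
        rw [hydef]
        field_simp
      rw [← h5, ← h6]
      have h7 : -(a s / (u : ℝ) ^ 2) * exp (-y) + a s / (u : ℝ) ^ 2 =
          a s * y / (u : ℝ) ^ 2 + a s * (1 - exp (-y) - y) / (u : ℝ) ^ 2 := by ring
      linarith
    have e2 : ∑ b : Fin n, -C * exp (-(1 / N * ρ (Pi.single b 1))) + C * n ≤
        (1 / N) * (C * ∑ b, ρ (Pi.single b 1)) := by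
      have : C * n = ∑ _b : Fin n, C := by simp [mul_comm]
      rw [this, ← Finset.sum_add_distrib, Finset.mul_sum, Finset.mul_sum]
      refine Finset.sum_le_sum fun b _ => ?_
      have h2 := Real.add_one_le_exp (-(1 / N * ρ (Pi.single b 1)))
      nlinarith
    have e3 := Finset.sum_le_sum fun s (_ : s ∈ Finset.univ) => e1 s
    rw [Finset.sum_add_distrib, ← Finset.mul_sum, Finset.sum_add_distrib, ← Finset.mul_sum] at e3
    have e4 : 0 ≤ (1 / N : ℝ) *
        ((∑ u ∈ Finset.Ioc 0 N, 1 / (u : ℝ)) * (∑ s, a s * ρ (m s)) + D) := by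
      have e5 : (∑ s, |a s|) * (2 / N) = (1 / N : ℝ) * ((∑ s, |a s|) * 2) := by ring
      rw [hD]
      linarith
    exact (mul_nonneg_iff_of_pos_left (by positivity)).1 e4
  by_contra hcon
  push Not at hcon
  have h1 : Tendsto (fun N : ℕ => ∑ u ∈ Finset.Ioc 0 N, 1 / (u : ℝ)) atTop atTop := by
    refine Real.tendsto_sum_range_one_div_nat_succ_atTop.congr fun N => ?_
    rw [Finset.range_eq_Ico, ← Finset.Ico_add_one_add_one_eq_Ioc,
      ← Finset.sum_Ico_add' (fun u : ℕ => 1 / (u : ℝ)) 0 N 1]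
    simp
  have h2 := (h1.atTop_mul_const_of_neg hcon).eventually (eventually_lt_atBot (-D))
  obtain ⟨N, hN1, hN2⟩ := (h2.and (eventually_gt_atTop 0)).exists
  have := key N hN2.ne'
  linarith

end Pool.Agent.H483Z.Mag
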