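import Mathlib

set_option autoImplicit false

/-!
A Cayley graph on the group of quadruples of residues modulo five that has uniform mixing at time
`2π/25` and has a non-integral eigenvalue.
-/

namespace Pool.Agent.H483Z.UniformMix

open Complex Finset

/-- The standard additive character modulo five. -/
noncomputable def ψ : AddChar (ZMod 5) ℂ := ZMod.stdAddChar (N := 5)

lemma exp_eq (k : ZMod 5) :
    Complex.exp (2 * (Real.pi : ℂ) * Complex.I * ((k.val : ℕ) : ℂ) / ((5 : ℕ) : ℂ)) = ψ k := by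
  rw [ψ, ZMod.stdAddChar_apply, ZMod.toCircle_apply]

lemma psi_prim : ψ.IsPrimitive := ZMod.isPrimitive_stdAddChar 5

lemma sum_psi (b : ZMod 5) : ∑ x : ZMod 5, ψ (x * b) = if b = 0 then 5 else 0 := by
  rw [AddChar.sum_mulShift b psi_prim]
  simp

/-- Representatives of the 26 lines in the integral part of the connection set. -/
def rep : Fin 26 → Fin 4 → ZMod 5 :=
  ![![2,2,1,1], ![4,2,2,1], ![1,2,3,1], ![3,2,4,1],
    ![2,3,1,1], ![4,3,2,1], ![1,3,3,1], ![3,3,4,1],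
    ![2,4,1,1], ![4,4,2,1], ![1,4,3,1], ![3,4,4,1],
    ![3,2,1,1], ![1,2,2,1], ![4,2,3,1], ![2,2,4,1],
    ![3,3,1,1], ![1,3,2,1], ![4,3,3,1], ![2,3,4,1],
    ![4,2,1,1], ![3,2,2,1], ![2,2,3,1], ![1,2,4,1],
    ![1,0,1,0], ![0,1,0,1]]

def sc : Fin 4 → ZMod 5 := ![1, 2, 3, 4]

def pt (p : Fin 26 × Fin 4) : Fin 4 → ZMod 5 := fun j => sc p.2 * rep p.1 j

def C1 : Finset (Fin 4 → ZMod 5) := Finset.univ.image pt

def e0 : Fin 4 → ZMod 5 := ![1, 0, 0, 0]

def e1 : Fin 4 → ZMod 5 := ![4, 0, 0, 0]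

/-- The connection set. -/
def CC : Finset (Fin 4 → ZMod 5) := insert e0 (insert e1 C1)

lemma pt_inj : Function.Injective pt := by
  intro p q
  revert p q
  decide +kernel

lemma e1_notMem : e1 ∉ C1 := by decide +kernel

lemma e0_notMem : e0 ∉ insert e1 C1 := by decide +kernel

lemma zero_notMem : (0 : Fin 4 → ZMod 5) ∉ CC := by decide +kernel

lemma neg_mem : ∀ c ∈ CC, -c ∈ CC := by decide +kernel

def dot (c y : Fin 4 → ZMod 5) : ZMod 5 := ∑ j, c j * y j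

def cnt (y : Fin 4 → ZMod 5) : ℕ := (Finset.univ.filter (fun i : Fin 26 => dot (rep i) y = 0)).card

lemma cnt_eq : ∀ a b c d : ZMod 5,
    ((cnt ![a, b, c, d] : ℕ) : ZMod 5) = 1 - (a ^ 3 * c + b ^ 3 * d) := by
  decide +kernel

lemma sum_sc (u : ZMod 5) : ∑ s : Fin 4, ψ (sc s * u) = (if u = 0 then 5 else 0) - 1 := by
  rw [← sum_psi u]
  have h : ∑ x : ZMod 5, ψ (x * u) = ψ (0 * u) + ∑ s : Fin 4, ψ (sc s * u) := by
    have hu : (Finset.univ : Finset (ZMod 5)) = {0, 1, 2, 3, 4} := by decide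
    rw [hu, Finset.sum_insert (by decide), Finset.sum_insert (by decide),
      Finset.sum_insert (by decide), Finset.sum_insert (by decide), Finset.sum_singleton,
      Fin.sum_univ_four]
    simp only [add_assoc]
    rfl
  rw [h]
  simp

lemma eig (y : Fin 4 → ZMod 5) :
    ∑ c ∈ CC, ψ (dot c y) = ψ (y 0) + ψ (-(y 0)) + (5 * (cnt y : ℂ) - 26) := by
  rw [CC, Finset.sum_insert e0_notMem, Finset.sum_insert e1_notMem, C1,
    Finset.sum_image (fun p _ q _ h => pt_inj h), Fintype.sum_prod_type]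
  have h0 : dot e0 y = y 0 := by
    simp [dot, e0, Fin.sum_univ_four]
  have h1 : dot e1 y = -(y 0) := by
    simp only [dot, e1, Fin.sum_univ_four]
    simp
    have : (4 : ZMod 5) = -1 := by decide
    rw [this]; ring
  have h2 : ∀ (i : Fin 26) (s : Fin 4), dot (pt (i, s)) y = sc s * dot (rep i) y := by
    intro i s
    simp only [dot, pt, Finset.mul_sum, mul_assoc]
  simp only [h0, h1, h2, sum_sc]
  rw [Finset.sum_sub_distrib, ← Finset.sum_filter]
  simp only [Finset.sum_const, cnt, Finset.card_univ, Fintype.card_fin, nsmul_eq_mul]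
  push_cast
  ring

/-- The factor that depends on the first coordinate only. -/
noncomputable def H (x : ZMod 5) : ℂ :=
  Complex.exp (-(Complex.I * ((2 * Real.pi / 25 : ℝ) : ℂ) * (ψ x + ψ (-x) - 26)))

lemma norm_H (x : ZMod 5) : ‖H x‖ = 1 := by
  rw [H, Complex.norm_exp]
  have h : (ψ x + ψ (-x)).im = 0 := by
    rw [AddChar.map_neg_eq_conj]
    simp
  have : (-(Complex.I * ((2 * Real.pi / 25 : ℝ) : ℂ) * (ψ x + ψ (-x) - 26))).re = 0 := by
    simp only [Complex.neg_re, Complex.mul_re, Complex.mul_im, Complex.I_re, Complex.I_im,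
      Complex.ofReal_re, Complex.ofReal_im, Complex.sub_im, h]
    simp
  rw [this, Real.exp_zero]

lemma norm_psi (x : ZMod 5) : ‖ψ x‖ = 1 := AddChar.norm_apply ψ x

lemma exp_cnt (n : ℕ) :
    Complex.exp (-(Complex.I * ((2 * Real.pi / 25 : ℝ) : ℂ) * (5 * (n : ℂ)))) =
      ψ (-(n : ZMod 5)) := by
  have h := ZMod.stdAddChar_coe (N := 5) (-(n : ℤ))
  push_cast at h
  rw [ψ, h]
  congr 1
  push_cast
  ring

lemma expo (a b c d : ZMod 5) :
    Complex.exp (-(Complex.I * ((2 * Real.pi / 25 : ℝ) : ℂ) *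
      ∑ k ∈ CC, ψ (dot k ![a, b, c, d]))) = H a * ψ (a ^ 3 * c + b ^ 3 * d - 1) := by
  rw [eig]
  have h : a ^ 3 * c + b ^ 3 * d - 1 = -((cnt ![a, b, c, d] : ℕ) : ZMod 5) := by
    rw [cnt_eq]; ring
  rw [h, ← exp_cnt, H, ← Complex.exp_add]
  congr 1
  simp only [Matrix.cons_val_zero]
  ring

def eqv : (Fin 4 → ZMod 5) ≃ ZMod 5 × ZMod 5 × ZMod 5 × ZMod 5 where
  toFun y := (y 0, y 1, y 2, y 3)
  invFun p := ![p.1, p.2.1, p.2.2.1, p.2.2.2]
  left_inv y := by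
    funext j
    fin_cases j <;> rfl
  right_inv p := rfl

lemma sum_four (f : (Fin 4 → ZMod 5) → ℂ) :
    ∑ y, f y = ∑ a, ∑ b, ∑ c, ∑ d, f ![a, b, c, d] := by
  rw [← Equiv.sum_comp eqv.symm f]
  simp only [Fintype.sum_prod_type]
  rfl

lemma cube_iff : ∀ a u : ZMod 5, a ^ 3 + u = 0 ↔ a = -u ^ 3 := by decide

lemma flat (v : Fin 4 → ZMod 5) :
    ‖∑ y : Fin 4 → ZMod 5, Complex.exp (-(Complex.I * ((2 * Real.pi / 25 : ℝ) : ℂ) *
      ∑ k ∈ CC, ψ (dot k y))) * ψ (dot v y)‖ = 25 := by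
  rw [sum_four]
  simp only [expo]
  have h : ∀ a b c d : ZMod 5, H a * ψ (a ^ 3 * c + b ^ 3 * d - 1) * ψ (dot v ![a, b, c, d]) =
      (H a * ψ (v 0 * a + v 1 * b - 1)) * (ψ (c * (a ^ 3 + v 2)) * ψ (d * (b ^ 3 + v 3))) := by
    intro a b c d
    rw [mul_assoc, mul_assoc, ← AddChar.map_add_eq_mul, ← AddChar.map_add_eq_mul,
      ← AddChar.map_add_eq_mul]
    congr 2
    simp only [dot, Fin.sum_univ_four]
    simp
    ring
  simp only [h]
  have h2 : ∀ a b : ZMod 5, ∑ c : ZMod 5, ∑ d : ZMod 5,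
      (H a * ψ (v 0 * a + v 1 * b - 1)) * (ψ (c * (a ^ 3 + v 2)) * ψ (d * (b ^ 3 + v 3))) =
      if a = -(v 2) ^ 3 then (if b = -(v 3) ^ 3 then
        (H a * ψ (v 0 * a + v 1 * b - 1)) * 25 else 0) else 0 := by
    intro a b
    simp only [← Finset.mul_sum, ← Finset.sum_mul, sum_psi, cube_iff]
    split_ifs <;> ring
  simp only [h2]
  rw [Finset.sum_comm]
  simp only [Finset.sum_ite_eq', Finset.mem_univ, if_true]
  rw [norm_mul, norm_mul, norm_H, norm_psi]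
  simp

lemma not_int : ¬ ∃ k : ℤ, ∑ c ∈ CC, ψ (dot c e0) = (k : ℂ) := by
  rintro ⟨k, hk⟩
  rw [eig] at hk
  have e : e0 0 = 1 := rfl
  rw [e] at hk
  obtain ⟨m, hm⟩ : ∃ m : ℤ, ψ 1 + ψ (-1) = (m : ℂ) :=
    ⟨k - (5 * (cnt e0 : ℤ) - 26), by push_cast; linear_combination hk⟩
  have h5 := sum_sc 1
  rw [Fin.sum_univ_four] at h5
  simp only [sc] at h5
  have a1 : ψ 1 * ψ 1 = ψ 2 := by rw [← AddChar.map_add_eq_mul]; rfl
  have a2 : ψ (-1) * ψ (-1) = ψ 3 := by rw [← AddChar.map_add_eq_mul]; rfl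
  have a3 : ψ 1 * ψ (-1) = 1 := by rw [← AddChar.map_add_eq_mul]; simp
  have a4 : ψ 1 + ψ 2 + ψ 3 + ψ (-1) = -1 := by
    have : (1 : ZMod 5) ≠ 0 := by decide
    rw [if_neg this] at h5
    have e4 : (-1 : ZMod 5) = 4 := by decide
    rw [e4]
    simpa using h5
  have hq : (m : ℂ) ^ 2 + m - 1 = 0 := by
    rw [← hm]
    linear_combination a1 + a2 + 2 * a3 + a4
  have hz : m ^ 2 + m - 1 = 0 := by exact_mod_cast hq
  have : Even (m ^ 2 + m) := by
    have := Int.even_mul_succ_self m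
    rwa [show m * (m + 1) = m ^ 2 + m by ring] at this
  obtain ⟨r, hr⟩ := this
  omega

end Pool.Agent.H483Z.UniformMix
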